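import Mathlib

set_option autoImplicit false

open Filter Metric Set Topology
open scoped ComplexConjugate Manifold ContDiff

namespace Pool.Agent.Results.MP_752b71_an.NoExtension

/-! ### Definitions used in the statement

`X` is a complex manifold modelled on the finite dimensional complex vector space `E`. -/

section Definitions

variable (E : Type) [NormedAddCommGroup E] [NormedSpace ℂ E]
variable {X : Type} [TopologicalSpace X] [ChartedSpace E X]

/-- `f` is a holomorphic map from the disc `|ζ| < r` into the subset `S` of `X`. -/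
def IsHolDisc (S : Set X) (r : ℝ) (f : ℂ → X) : Prop :=
  ContMDiffOn 𝓘(ℂ, ℂ) 𝓘(ℂ, E) ω f (ball 0 r) ∧ MapsTo f (ball 0 r) S

/-- The Laplacian at `ζ = 0` of a real function of one complex variable. -/
noncomputable def laplaceAtZero (u : ℂ → ℝ) : ℝ :=
  iteratedDeriv 2 (fun s : ℝ => u (s : ℂ)) 0 +
    iteratedDeriv 2 (fun s : ℝ => u ((s : ℂ) * Complex.I)) 0

/-- The complex submanifold `S` of `X` is Kähler: there are open sets `V j` covering `S` and smooth
real functions `ρ j` on `V j` whose restrictions to `S` are strictly plurisubharmonic and have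
pluriharmonic differences, so that the forms `dd^c (ρ j)` glue to a Kähler form on `S`. The
positivity of `dd^c` is tested on holomorphic discs in `S`. -/
def IsKahlerSubmanifold (S : Set X) : Prop :=
  ∃ (J : Type) (V : J → Set X) (ρ : J → X → ℝ),
    (∀ j, IsOpen (V j)) ∧ (∀ x ∈ S, ∃ j, x ∈ V j) ∧
    (∀ j, ContMDiffOn 𝓘(ℝ, E) 𝓘(ℝ, ℝ) ∞ (ρ j) (V j)) ∧
    (∀ (j : J) (r : ℝ) (f : ℂ → X), 0 < r → IsHolDisc E (V j ∩ S) r f →
      mfderiv 𝓘(ℂ, ℂ) 𝓘(ℂ, E) f 0 ≠ 0 → 0 < laplaceAtZero (fun ζ => ρ j (f ζ))) ∧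
    (∀ (j k : J) (r : ℝ) (f : ℂ → X), 0 < r → IsHolDisc E (V j ∩ V k ∩ S) r f →
      laplaceAtZero (fun ζ => ρ j (f ζ) - ρ k (f ζ)) = 0)

/-- `π : X → Δ` is a proper holomorphic submersion onto the unit disc `Δ` whose fibres
`X_t = π⁻¹(t)` are connected compact Kähler manifolds. -/
structure IsKahlerFamily (π : X → ℂ) : Prop where
  mem_disc : ∀ x, π x ∈ ball (0 : ℂ) 1
  holomorphic : ContMDiff 𝓘(ℂ, E) 𝓘(ℂ, ℂ) ω π
  submersion : ∀ x, Function.Surjective (mfderiv 𝓘(ℂ, E) 𝓘(ℂ, ℂ) π x)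
  proper : ∀ K : Set ℂ, K ⊆ ball 0 1 → IsCompact K → IsCompact (π ⁻¹' K)
  connected : ∀ t ∈ ball (0 : ℂ) 1, IsConnected (π ⁻¹' {t})
  kahler : ∀ t ∈ ball (0 : ℂ) 1, IsKahlerSubmanifold E (π ⁻¹' {t})

/-- `φ : S → [-∞, ∞)` is plurisubharmonic (and not identically `-∞` on any nonempty open subset of
`S`, i.e. locally integrable) on the complex submanifold `S` of `X`: it is upper semicontinuous and
for every holomorphic map `f` from a neighbourhood of the closed unit disc into `S`, the value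
`φ (f 0)` is at most the average of `φ ∘ f` over the unit circle, that is, at most the average of
every continuous function `g ≥ φ ∘ f`. -/
def IsPsh (S : Set X) (φ : X → EReal) : Prop :=
  (∀ x ∈ S, φ x < ⊤) ∧ UpperSemicontinuousOn φ S ∧
  (∀ x ∈ S, ∀ W ∈ 𝓝 x, ∃ y ∈ W ∩ S, φ y ≠ ⊥) ∧
  ∀ (r : ℝ) (f : ℂ → X), 1 < r → IsHolDisc E S r f → ∀ g : ℂ → ℝ, Continuous g →
    (∀ ζ : ℂ, ‖ζ‖ = 1 → φ (f ζ) ≤ ((g ζ : ℝ) : EReal)) →
      φ (f 0) ≤ ((Real.circleAverage g 0 1 : ℝ) : EReal)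

variable (X)

/-- A holomorphic line bundle on `X`, given by local trivialisations over the open cover `U i` with
transition functions `g i j` (the components of a section satisfy `s_i = g_{ij} s_j`). -/
structure HolLineBundle where
  ι : Type
  U : ι → Set X
  g : ι → ι → X → ℂ
  isOpen_U : ∀ i, IsOpen (U i)
  cover : ∀ x, ∃ i, x ∈ U i
  holomorphic : ∀ i j, ContMDiffOn 𝓘(ℂ, E) 𝓘(ℂ, ℂ) ω (g i j) (U i ∩ U j)
  ne_zero : ∀ i j, ∀ x ∈ U i ∩ U j, g i j x ≠ 0
  cocycle : ∀ i j k, ∀ x ∈ U i ∩ U j ∩ U k, g i j x * g j k x = g i k x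

variable {E X}

/-- The weights `φ i` define a singular hermitian metric `e^{-φ}` of semi-positive curvature on the
restriction of `L` to the complex submanifold `S` of `X`: each `φ i` is plurisubharmonic on
`U i ∩ S` and `φ i = φ j + log |g i j|²` on `U i ∩ U j ∩ S`. -/
structure HolLineBundle.IsPosMetric (L : HolLineBundle E X) (S : Set X) (φ : L.ι → X → EReal) :
    Prop where
  psh : ∀ i, IsPsh E (L.U i ∩ S) (φ i)
  compat : ∀ i j, ∀ x ∈ L.U i ∩ L.U j ∩ S,
    φ i x = φ j x + ((Real.log (‖L.g i j x‖ ^ 2) : ℝ) : EReal)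

/-- `L` admits a singular hermitian metric of semi-positive curvature. -/
def HolLineBundle.IsPseudoeffective (L : HolLineBundle E X) : Prop :=
  ∃ φ : L.ι → X → EReal, L.IsPosMetric Set.univ φ

end Definitions

/-- Sub-mean value inequality for `log |h|`. -/
lemma log_norm_le_circleAverage {h : ℂ → ℂ} (hh : AnalyticOnNhd ℂ h (closedBall 0 1))
    {g : ℂ → ℝ} (hg : Continuous g)
    (hle : ∀ ζ : ℂ, ‖ζ‖ = 1 → h ζ ≠ 0 → Real.log ‖h ζ‖ ≤ g ζ) (h0 : h 0 ≠ 0) :
    Real.log ‖h 0‖ ≤ Real.circleAverage g 0 1 := by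
  have hh' : AnalyticOnNhd ℂ h (closedBall 0 |(1 : ℝ)|) := by simpa using hh
  have hJ := hh'.circleAverage_log_norm one_ne_zero h0
  -- zeros are codiscrete
  have hcod : {ζ : ℂ | h ζ ≠ 0} ∈ codiscreteWithin (sphere (0 : ℂ) |(1 : ℝ)|) := by
    have h1 : h ⁻¹' {0}ᶜ ∈ codiscreteWithin (closedBall (0 : ℂ) |(1 : ℝ)|) :=
      hh'.preimage_zero_mem_codiscreteWithin h0 (by simp)
        ⟨⟨0, by simp⟩, (convex_closedBall (0 : ℂ) |(1 : ℝ)|).isPreconnected⟩
    exact codiscreteWithin_mono sphere_subset_closedBall h1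
  have hci : CircleIntegrable (fun ζ => Real.log ‖h ζ‖) 0 1 :=
    (hh'.mono sphere_subset_closedBall).meromorphicOn.circleIntegrable_log_norm
  set k : ℂ → ℝ := fun ζ => if h ζ = 0 then g ζ else Real.log ‖h ζ‖ with hk
  have hkeq : (fun ζ => Real.log ‖h ζ‖) =ᶠ[codiscreteWithin (sphere (0 : ℂ) |(1 : ℝ)|)] k := by
    filter_upwards [hcod] with ζ hζ
    have : h ζ ≠ 0 := hζ
    simp [hk, this]
  have hki : CircleIntegrable k 0 1 := hci.congr_codiscreteWithin hkeq
  have hgi : CircleIntegrable g 0 1 := hg.continuousOn.circleIntegrable zero_le_one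
  have h1 : Real.circleAverage (fun ζ => Real.log ‖h ζ‖) 0 1 = Real.circleAverage k 0 1 :=
    Real.circleAverage_congr_codiscreteWithin hkeq one_ne_zero
  have h2 : Real.circleAverage k 0 1 ≤ Real.circleAverage g 0 1 := by
    refine Real.circleAverage_mono hki hgi fun ζ hζ => ?_
    have hζ' : ‖ζ‖ = 1 := by simpa using hζ
    by_cases hz : h ζ = 0
    · simp [hk, hz]
    · simp only [hk, hz, if_false]
      exact hle ζ hζ' hz
  have h3 : Real.log ‖h 0‖ ≤ Real.circleAverage (fun ζ => Real.log ‖h ζ‖) 0 1 := by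
    rw [hJ]
    have : 0 ≤ ∑ᶠ u, MeromorphicOn.divisor h (closedBall 0 |(1 : ℝ)|) u * Real.log (1 * ‖(0 : ℂ) - u‖⁻¹) := by
      refine finsum_nonneg fun u => ?_
      by_cases hu : u ∈ closedBall (0 : ℂ) |(1 : ℝ)|
      · refine mul_nonneg ?_ ?_
        · have := (MeromorphicOn.AnalyticOnNhd.divisor_nonneg hh') u
          exact_mod_cast this
        · rw [one_mul, zero_sub, norm_neg]
          have hu' : ‖u‖ ≤ 1 := by simpa using hu
          rcases eq_or_ne u 0 with rfl | hu0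
          · simp
          · exact Real.log_nonneg ((one_le_inv₀ (norm_pos_iff.2 hu0)).2 hu')
      · rw [Function.locallyFinsuppWithin.apply_eq_zero_of_notMem _ hu]; simp
    linarith
  linarith

lemma hasDerivAt_normSq_comp {F : ℝ → ℂ} {F' : ℂ} {s : ℝ} (h : HasDerivAt F F' s) :
    HasDerivAt (fun s => Complex.normSq (F s)) (2 * (conj (F s) * F').re) s := by
  have h1 : HasDerivAt (fun s => (F s).re) F'.re s :=
    Complex.reCLM.hasFDerivAt.comp_hasDerivAt s h
  have h2 : HasDerivAt (fun s => (F s).im) F'.im s :=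
    Complex.imCLM.hasFDerivAt.comp_hasDerivAt s h
  have h3 := (h1.mul h1).add (h2.mul h2)
  have h4 : (fun s => Complex.normSq (F s)) = fun s => (F s).re * (F s).re + (F s).im * (F s).im := by
    funext s; rw [Complex.normSq_apply]
  rw [h4]
  refine HasDerivAt.congr_deriv h3 ?_
  simp [Complex.mul_re]
  ring

/-- second derivative of `log ∑ |F_j|²` along the real line in direction `d`. -/
lemma iteratedDeriv_log_sum {J : Type} [Fintype J] (F : J → ℂ → ℂ) {r : ℝ} (hr : 0 < r)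
    (hF : ∀ j, DifferentiableOn ℂ (F j) (ball 0 r)) (d : ℂ) (hd : ‖d‖ = 1)
    (hN : 0 < ∑ j, Complex.normSq (F j 0)) :
    iteratedDeriv 2 (fun s : ℝ => Real.log (∑ j, Complex.normSq (F j ((s : ℂ) * d)))) 0 =
      ((∑ j, (2 * Complex.normSq (deriv (F j) 0) +
            2 * (conj (F j 0) * (deriv (deriv (F j)) 0 * d ^ 2)).re)) *
          (∑ j, Complex.normSq (F j 0)) -
        (∑ j, 2 * (conj (F j 0) * (deriv (F j) 0 * d)).re) ^ 2) /
      (∑ j, Complex.normSq (F j 0)) ^ 2 := by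
  have hopen : IsOpen (ball (0 : ℂ) r) := isOpen_ball
  have hline : ∀ (g : ℂ → ℂ), DifferentiableOn ℂ g (ball 0 r) → ∀ s : ℝ, |s| < r →
      HasDerivAt (fun s : ℝ => g ((s : ℂ) * d)) (deriv g ((s : ℂ) * d) * d) s := by
    intro g hg s hs
    have hmem : (s : ℂ) * d ∈ ball (0 : ℂ) r := by
      simp [hd, hs]
    have h1 : HasDerivAt g (deriv g ((s : ℂ) * d)) ((s : ℂ) * d) :=
      (hg.differentiableAt (hopen.mem_nhds hmem)).hasDerivAt
    have h2 : HasDerivAt (fun s : ℝ => (s : ℂ) * d) d s := by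
      simpa using (Complex.ofRealCLM.hasDerivAt (x := s)).mul_const d
    exact h1.comp s h2
  have hdF : ∀ j, DifferentiableOn ℂ (deriv (F j)) (ball 0 r) := fun j => (hF j).deriv hopen
  set N : ℝ → ℝ := fun s => ∑ j, Complex.normSq (F j ((s : ℂ) * d)) with hNdef
  set N1 : ℝ → ℝ := fun s => ∑ j, 2 * (conj (F j ((s : ℂ) * d)) * (deriv (F j) ((s : ℂ) * d) * d)).re
    with hN1def
  have hN0 : N 0 = ∑ j, Complex.normSq (F j 0) := by simp [hNdef]
  have hN10 : N1 0 = ∑ j, 2 * (conj (F j 0) * (deriv (F j) 0 * d)).re := by simp [hN1def]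
  have hd1 : ∀ s : ℝ, |s| < r → HasDerivAt N (N1 s) s := by
    intro s hs
    exact HasDerivAt.fun_sum fun j _ => hasDerivAt_normSq_comp (hline (F j) (hF j) s hs)
  have hd2 : HasDerivAt N1 (∑ j, (2 * Complex.normSq (deriv (F j) 0) +
            2 * (conj (F j 0) * (deriv (deriv (F j)) 0 * d ^ 2)).re)) 0 := by
    refine HasDerivAt.fun_sum fun j _ => ?_
    have h1 := hline (F j) (hF j) 0 (by simpa using hr)
    have h2 := (hline (deriv (F j)) (hdF j) 0 (by simpa using hr)).mul_const d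
    have h3 : HasDerivAt (fun s : ℝ => conj (F j ((s : ℂ) * d)))
        (conj (deriv (F j) ((0 : ℝ) * d) * d)) 0 :=
      Complex.conjCLE.hasFDerivAt.comp_hasDerivAt (0 : ℝ) h1
    have h4 := h3.mul h2
    have h5 : HasDerivAt (fun s : ℝ => (conj (F j ((s : ℂ) * d)) *
        (deriv (F j) ((s : ℂ) * d) * d)).re) _ 0 :=
      Complex.reCLM.hasFDerivAt.comp_hasDerivAt (0 : ℝ) h4
    refine (h5.const_mul 2).congr_deriv ?_
    have h6 : conj (deriv (F j) 0 * d) * (deriv (F j) 0 * d) = (Complex.normSq (deriv (F j) 0) : ℂ) := by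
      rw [mul_comm, Complex.mul_conj, map_mul, Complex.normSq_eq_norm_sq d, hd]
      simp
    simp only [Complex.ofReal_zero, zero_mul, Complex.reCLM_apply, Complex.add_re, mul_add]
    rw [h6, Complex.ofReal_re]
    ring_nf
  have hNpos : ∀ᶠ s in 𝓝 (0 : ℝ), 0 < N s := by
    have : ContinuousAt N 0 := (hd1 0 (by simpa using hr)).continuousAt
    exact this.eventually (lt_mem_nhds (by rw [hN0]; exact hN))
  have hsmall : ∀ᶠ s in 𝓝 (0 : ℝ), |s| < r := by
    have : ContinuousAt (fun s : ℝ => |s|) 0 := continuous_abs.continuousAt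
    exact this.eventually (gt_mem_nhds (by simpa using hr))
  rw [iteratedDeriv_succ, iteratedDeriv_one]
  have heq : deriv (fun s : ℝ => Real.log (N s)) =ᶠ[𝓝 0] fun s => N1 s / N s := by
    filter_upwards [hNpos, hsmall] with s hs1 hs2
    exact ((hd1 s hs2).log hs1.ne').deriv
  have hfin : HasDerivAt (fun s => N1 s / N s) _ 0 :=
    hd2.div (hd1 0 (by simpa using hr)) (by rw [hN0]; exact hN.ne')
  rw [heq.deriv_eq, hfin.deriv, hN0, hN10]
  ring

/-- Laplacian of `log ∑ |F_j|²`. -/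
lemma laplace_log_sum {J : Type} [Fintype J] (F : J → ℂ → ℂ) {r : ℝ} (hr : 0 < r)
    (hF : ∀ j, DifferentiableOn ℂ (F j) (ball 0 r))
    (hN : 0 < ∑ j, Complex.normSq (F j 0)) :
    laplaceAtZero (fun ζ => Real.log (∑ j, Complex.normSq (F j ζ))) =
      4 * ((∑ j, Complex.normSq (deriv (F j) 0)) * (∑ j, Complex.normSq (F j 0)) -
        Complex.normSq (∑ j, conj (F j 0) * deriv (F j) 0)) /
      (∑ j, Complex.normSq (F j 0)) ^ 2 := by
  have h1 := iteratedDeriv_log_sum F hr hF 1 (by simp) hN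
  have h2 := iteratedDeriv_log_sum F hr hF Complex.I (by simp) hN
  unfold laplaceAtZero
  simp only [mul_one] at h1
  rw [h1, h2]
  set N := ∑ j, Complex.normSq (F j 0)
  have e1 : (∑ j, 2 * (conj (F j 0) * deriv (F j) 0).re) =
      2 * (∑ j, conj (F j 0) * deriv (F j) 0).re := by
    rw [Complex.re_sum, Finset.mul_sum]
  have e2 : (∑ j, 2 * (conj (F j 0) * (deriv (F j) 0 * Complex.I)).re) =
      -(2 * (∑ j, conj (F j 0) * deriv (F j) 0).im) := by
    rw [Complex.im_sum, Finset.mul_sum, ← Finset.sum_neg_distrib]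
    refine Finset.sum_congr rfl fun j _ => ?_
    simp [Complex.mul_re, Complex.mul_im]
    ring
  have e3 : (∑ j, (2 * Complex.normSq (deriv (F j) 0) +
      2 * (conj (F j 0) * (deriv (deriv (F j)) 0 * 1 ^ 2)).re)) +
      (∑ j, (2 * Complex.normSq (deriv (F j) 0) +
      2 * (conj (F j 0) * (deriv (deriv (F j)) 0 * Complex.I ^ 2)).re)) =
      4 * ∑ j, Complex.normSq (deriv (F j) 0) := by
    rw [← Finset.sum_add_distrib, Finset.mul_sum]
    refine Finset.sum_congr rfl fun j _ => ?_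
    simp
    ring
  rw [e1, e2, ← add_div]
  congr 1
  rw [Complex.normSq_apply]
  linear_combination N * e3

lemma laplace_log_pos {J : Type} [Fintype J] (F : J → ℂ → ℂ) {r : ℝ} (hr : 0 < r)
    (hF : ∀ j, DifferentiableOn ℂ (F j) (ball 0 r)) (j₀ : J)
    (hj₀ : ∀ ζ ∈ ball (0 : ℂ) r, F j₀ ζ = 1) (j₁ : J) (hj₁ : deriv (F j₁) 0 ≠ 0) :
    0 < laplaceAtZero (fun ζ => Real.log (∑ j, Complex.normSq (F j ζ))) := by
  classical
  have hF0 : F j₀ 0 = 1 := hj₀ 0 (by simpa using hr)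
  have hN1 : 1 ≤ ∑ j, Complex.normSq (F j 0) := by
    calc (1 : ℝ) = Complex.normSq (F j₀ 0) := by rw [hF0]; simp
      _ ≤ _ := Finset.single_le_sum (f := fun j => Complex.normSq (F j 0))
        (fun j _ => Complex.normSq_nonneg _) (Finset.mem_univ j₀)
  rw [laplace_log_sum F hr hF (by linarith)]
  have hd0 : deriv (F j₀) 0 = 0 := by
    have : F j₀ =ᶠ[𝓝 0] fun _ => (1 : ℂ) := by
      filter_upwards [isOpen_ball.mem_nhds (mem_ball_self hr)] with ζ hζ using hj₀ ζ hζ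
    rw [this.deriv_eq, deriv_const]
  set A := ∑ j, Complex.normSq (deriv (F j) 0) with hA
  set N := ∑ j, Complex.normSq (F j 0) with hN
  have hApos : 0 < A := by
    refine lt_of_lt_of_le (Complex.normSq_pos.2 hj₁) ?_
    exact Finset.single_le_sum (f := fun j => Complex.normSq (deriv (F j) 0))
        (fun j _ => Complex.normSq_nonneg _) (Finset.mem_univ j₁)
  have hCS : Complex.normSq (∑ j, conj (F j 0) * deriv (F j) 0) ≤ (N - 1) * A := by
    have h1 : ∑ j, conj (F j 0) * deriv (F j) 0 =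
        ∑ j ∈ Finset.univ.erase j₀, conj (F j 0) * deriv (F j) 0 := by
      rw [← Finset.add_sum_erase Finset.univ _ (Finset.mem_univ j₀), hd0]
      simp
    have hN' : ∑ j ∈ Finset.univ.erase j₀, ‖F j 0‖ ^ 2 = N - 1 := by
      rw [hN, ← Finset.add_sum_erase Finset.univ _ (Finset.mem_univ j₀), hF0]
      simp [Complex.normSq_eq_norm_sq]
    have hA' : ∑ j ∈ Finset.univ.erase j₀, ‖deriv (F j) 0‖ ^ 2 = A := by
      rw [hA, ← Finset.add_sum_erase Finset.univ _ (Finset.mem_univ j₀), hd0]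
      simp [Complex.normSq_eq_norm_sq]
    rw [h1, Complex.normSq_eq_norm_sq]
    have h2 : ‖∑ j ∈ Finset.univ.erase j₀, conj (F j 0) * deriv (F j) 0‖ ≤
        ∑ j ∈ Finset.univ.erase j₀, ‖F j 0‖ * ‖deriv (F j) 0‖ := by
      refine (norm_sum_le _ _).trans (Finset.sum_le_sum fun j _ => ?_)
      rw [norm_mul, RCLike.norm_conj]
    calc ‖∑ j ∈ Finset.univ.erase j₀, conj (F j 0) * deriv (F j) 0‖ ^ 2
        ≤ (∑ j ∈ Finset.univ.erase j₀, ‖F j 0‖ * ‖deriv (F j) 0‖) ^ 2 :=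
          pow_le_pow_left₀ (norm_nonneg _) h2 2
      _ ≤ (∑ j ∈ Finset.univ.erase j₀, ‖F j 0‖ ^ 2) *
          (∑ j ∈ Finset.univ.erase j₀, ‖deriv (F j) 0‖ ^ 2) :=
          Finset.sum_mul_sq_le_sq_mul_sq _ _ _
      _ = (N - 1) * A := by rw [hN', hA']
  have hNpos : 0 < N := by linarith
  apply div_pos _ (by positivity)
  nlinarith

lemma laplace_log_normSq {h : ℂ → ℂ} {r : ℝ} (hr : 0 < r) (hh : DifferentiableOn ℂ h (ball 0 r))
    (h0 : h 0 ≠ 0) : laplaceAtZero (fun ζ => Real.log (Complex.normSq (h ζ))) = 0 := by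
  have h1 := laplace_log_sum (fun (_ : Unit) => h) hr (fun _ => hh) (by simpa using h0)
  simp only [Finset.univ_unique, Finset.sum_singleton] at h1
  rw [h1, map_mul, Complex.normSq_conj]
  ring

/-! ### logarithms of moduli of holomorphic functions are plurisubharmonic -/

noncomputable def EL (z : ℂ) : EReal := ENNReal.log (ENNReal.ofReal ‖z‖)

lemma EL_zero : EL 0 = ⊥ := by simp [EL]

lemma EL_of_ne {z : ℂ} (hz : z ≠ 0) : EL z = ((Real.log ‖z‖ : ℝ) : EReal) := by
  unfold EL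
  exact ENNReal.log_ofReal_of_pos (norm_pos_iff.2 hz)

lemma EL_mul (z w : ℂ) : EL (z * w) = EL z + EL w := by
  unfold EL
  rw [norm_mul, ENNReal.ofReal_mul (norm_nonneg _), ENNReal.log_mul_add]

lemma EL_lt_top (z : ℂ) : EL z < ⊤ := by
  unfold EL
  rw [ENNReal.log_lt_top_iff]
  exact ENNReal.ofReal_lt_top

lemma EL_ne_bot {z : ℂ} (hz : z ≠ 0) : EL z ≠ ⊥ := by
  rw [EL_of_ne hz]; exact EReal.coe_ne_bot _

lemma continuous_EL : Continuous EL :=
  ENNReal.continuous_log.comp (ENNReal.continuous_ofReal.comp continuous_norm)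

lemma isPsh_EL {E : Type} [NormedAddCommGroup E] [NormedSpace ℂ E]
    {X : Type} [TopologicalSpace X] [ChartedSpace E X] (S : Set X) (h : X → ℂ)
    (hc : ContinuousOn h S)
    (hd : ∀ (r : ℝ) (f : ℂ → X), 0 < r → IsHolDisc E S r f →
      DifferentiableOn ℂ (fun ζ => h (f ζ)) (ball 0 r))
    (hne : ∀ x ∈ S, ∀ W ∈ 𝓝 x, ∃ y ∈ W ∩ S, h y ≠ 0) :
    IsPsh E S (fun x => EL (h x)) := by
  refine ⟨fun x _ => EL_lt_top _, ?_, ?_, ?_⟩
  · exact (continuous_EL.comp_continuousOn hc).upperSemicontinuousOn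
  · intro x hx W hW
    obtain ⟨y, hy, hy'⟩ := hne x hx W hW
    exact ⟨y, hy, EL_ne_bot hy'⟩
  · intro r f hr hf g hg hle
    by_cases h0 : h (f 0) = 0
    · simp only [h0, EL_zero]; exact bot_le
    · simp only [EL_of_ne h0]
      have hr0 : 0 < r := by linarith
      have han : AnalyticOnNhd ℂ (fun ζ => h (f ζ)) (closedBall 0 1) := by
        have h1 : AnalyticOnNhd ℂ (fun ζ => h (f ζ)) (ball 0 r) :=
          (hd r f hr0 hf).analyticOnNhd isOpen_ball
        exact h1.mono (closedBall_subset_ball hr)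
      refine EReal.coe_le_coe_iff.2 (log_norm_le_circleAverage han hg ?_ h0)
      intro ζ hζ hne
      have := hle ζ hζ
      simp only [EL_of_ne hne] at this
      exact EReal.coe_le_coe_iff.1 this

/-! ### the total space -/

/-- rank one orthogonal projection onto the line of `v`. -/
noncomputable def prj {k : ℕ} (v : Fin k → ℂ) : Fin k → Fin k → ℂ :=
  fun i j => v i * conj (v j) / ((∑ l, Complex.normSq (v l) : ℝ) : ℂ)

def Eqn (x : Fin 2 → ℂ) (y : Fin 3 → ℂ) (t : ℂ) : Prop :=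
  x 1 ^ 2 * y 0 + t * x 0 * x 1 * y 2 = x 0 ^ 2 * y 1

lemma sum_normSq_pos {k : ℕ} {v : Fin k → ℂ} {i : Fin k} (h : v i ≠ 0) :
    0 < ∑ l, Complex.normSq (v l) :=
  lt_of_lt_of_le (Complex.normSq_pos.2 h) (Finset.single_le_sum
    (f := fun l => Complex.normSq (v l)) (fun _ _ => Complex.normSq_nonneg _) (Finset.mem_univ i))

lemma prj_smul {k : ℕ} (v : Fin k → ℂ) {c : ℂ} (hc : c ≠ 0) : prj (fun i => c * v i) = prj v := by
  funext i j
  unfold prj
  have h1 : (∑ l, Complex.normSq (c * v l) : ℝ) = Complex.normSq c * ∑ l, Complex.normSq (v l) := by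
    rw [Finset.mul_sum]
    exact Finset.sum_congr rfl fun l _ => by rw [Complex.normSq_mul]
  rw [h1, map_mul, Complex.ofReal_mul, ← Complex.mul_conj]
  have hc' : conj c ≠ 0 := by simpa using hc
  rw [show c * v i * (conj c * conj (v j)) = c * conj c * (v i * conj (v j)) by ring,
    mul_div_mul_left _ _ (mul_ne_zero hc hc')]

lemma prj_diag_ne {k : ℕ} {v : Fin k → ℂ} {i : Fin k} : prj v i i ≠ 0 ↔ v i ≠ 0 := by
  constructor
  · intro h h'
    apply h
    simp [prj, h']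
  · intro h
    unfold prj
    rw [Complex.mul_conj, ← Complex.ofReal_div, Complex.ofReal_ne_zero]
    exact (div_pos (Complex.normSq_pos.2 h) (sum_normSq_pos h)).ne'

lemma prj_ratio {k : ℕ} {v : Fin k → ℂ} {i : Fin k} (h : v i ≠ 0) (j : Fin k) :
    prj v j i / prj v i i = v j / v i := by
  unfold prj
  have h1 : ((∑ l, Complex.normSq (v l) : ℝ) : ℂ) ≠ 0 :=
    Complex.ofReal_ne_zero.2 (sum_normSq_pos h).ne'
  have h2 : conj (v i) ≠ 0 := by simpa using h
  field_simp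

/-- the total space of the family -/
def Tot : Type := {m : (Fin 2 → Fin 2 → ℂ) × (Fin 3 → Fin 3 → ℂ) × ℂ //
  ∃ (x : Fin 2 → ℂ) (y : Fin 3 → ℂ), x ≠ 0 ∧ y ≠ 0 ∧ ‖m.2.2‖ < 1 ∧ Eqn x y m.2.2 ∧
    m.1 = prj x ∧ m.2.1 = prj y}

instance : TopologicalSpace Tot := inferInstanceAs (TopologicalSpace (Subtype _))
instance : T2Space Tot := inferInstanceAs (T2Space (Subtype _))
instance : SecondCountableTopology Tot := inferInstanceAs (SecondCountableTopology (Subtype _))

abbrev E3 := ℂ × ℂ × ℂ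

def ii (c : Bool × Bool) : Fin 2 := if c.1 then 1 else 0
def ii' (c : Bool × Bool) : Fin 2 := if c.1 then 0 else 1
def jj (c : Bool × Bool) : Fin 3 := if c.2 then (if c.1 then 1 else 0) else 2
def jj' (c : Bool × Bool) : Fin 3 := if c.2 then 2 else (if c.1 then 1 else 0)

def Xf (c : Bool × Bool) (p : E3) : Fin 2 → ℂ := if c.1 then ![p.1, 1] else ![1, p.1]
def Yf (c : Bool × Bool) (p : E3) : Fin 3 → ℂ :=
  match c with
  | (false, false) => ![p.2.1, p.1 ^ 2 * p.2.1 + p.2.2 * p.1, 1]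
  | (false, true) => ![1, p.1 ^ 2 + p.2.2 * p.1 * p.2.1, p.2.1]
  | (true, false) => ![p.1 ^ 2 * p.2.1 - p.2.2 * p.1, p.2.1, 1]
  | (true, true) => ![p.1 ^ 2 - p.2.2 * p.1 * p.2.1, 1, p.2.1]

lemma Xf_ii (c : Bool × Bool) (p : E3) : Xf c p (ii c) = 1 := by
  rcases c with ⟨_ | _, _ | _⟩ <;> simp [Xf, ii]
lemma Xf_ii' (c : Bool × Bool) (p : E3) : Xf c p (ii' c) = p.1 := by
  rcases c with ⟨_ | _, _ | _⟩ <;> simp [Xf, ii']
lemma Yf_jj (c : Bool × Bool) (p : E3) : Yf c p (jj c) = 1 := by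
  rcases c with ⟨_ | _, _ | _⟩ <;> simp [Yf, jj]
lemma Yf_jj' (c : Bool × Bool) (p : E3) : Yf c p (jj' c) = p.2.1 := by
  rcases c with ⟨_ | _, _ | _⟩ <;> simp [Yf, jj']

lemma eqn_f (c : Bool × Bool) (p : E3) : Eqn (Xf c p) (Yf c p) p.2.2 := by
  rcases c with ⟨_ | _, _ | _⟩ <;> simp [Yf, Xf, Eqn]

lemma contDiff_Xf (c : Bool × Bool) (i : Fin 2) : ContDiff ℂ ω (fun p => Xf c p i) := by
  rcases c with ⟨_ | _, _ | _⟩ <;> fin_cases i <;> simp [Xf] <;> fun_prop
lemma contDiff_Yf (c : Bool × Bool) (j : Fin 3) : ContDiff ℂ ω (fun p => Yf c p j) := by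
  rcases c with ⟨_ | _, _ | _⟩ <;> fin_cases j <;> simp [Yf] <;> fun_prop

/-- homogeneous coordinates are recovered from the chart coordinates. -/
lemma recover (c : Bool × Bool) {x : Fin 2 → ℂ} {y : Fin 3 → ℂ} {t : ℂ} (he : Eqn x y t)
    (hx : x (ii c) ≠ 0) (hy : y (jj c) ≠ 0) :
    (x = fun i => x (ii c) * Xf c (x (ii' c) / x (ii c), y (jj' c) / y (jj c), t) i) ∧
    (y = fun j => y (jj c) * Yf c (x (ii' c) / x (ii c), y (jj' c) / y (jj c), t) j) := by
  unfold Eqn at he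
  rcases c with ⟨_ | _, _ | _⟩ <;> simp only [ii, jj, ii', jj', Bool.false_eq_true, if_false, if_true] at hx hy ⊢
  · constructor
    · funext i; fin_cases i <;> simp [Xf]; field_simp
    · funext j; fin_cases j <;> simp [Yf]
      · field_simp
      · field_simp; linear_combination -he
  · constructor
    · funext i; fin_cases i <;> simp [Xf]; field_simp
    · funext j; fin_cases j <;> simp [Yf]
      · field_simp; linear_combination -he
      · field_simp
  · constructor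
    · funext i; fin_cases i <;> simp [Xf]; field_simp
    · funext j; fin_cases j <;> simp [Yf]
      · field_simp; linear_combination he
      · field_simp
  · constructor
    · funext i; fin_cases i <;> simp [Xf]; field_simp
    · funext j; fin_cases j <;> simp [Yf]
      · field_simp; linear_combination he
      · field_simp

/-- replace `t` by `0` outside of the disc (only used to have a total inverse function). -/
noncomputable def clampT (p : E3) : E3 := if ‖p.2.2‖ < 1 then p else (p.1, p.2.1, 0)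

lemma norm_clampT (p : E3) : ‖(clampT p).2.2‖ < 1 := by
  unfold clampT
  split_ifs with h
  · exact h
  · simp

lemma clampT_of_lt {p : E3} (h : ‖p.2.2‖ < 1) : clampT p = p := if_pos h

lemma ne_zero_of_apply {k : ℕ} {v : Fin k → ℂ} {i : Fin k} (h : v i ≠ 0) : v ≠ 0 := fun h' => h (by simp [h'])

/-- inverse of the chart `c`. -/
noncomputable def bwd (c : Bool × Bool) (p : E3) : Tot :=
  ⟨(prj (Xf c (clampT p)), prj (Yf c (clampT p)), (clampT p).2.2),
    Xf c (clampT p), Yf c (clampT p),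
    ne_zero_of_apply (i := ii c) (by rw [Xf_ii]; exact one_ne_zero),
    ne_zero_of_apply (i := jj c) (by rw [Yf_jj]; exact one_ne_zero),
    norm_clampT p, eqn_f c _, rfl, rfl⟩

noncomputable def fwd (c : Bool × Bool) (m : Tot) : E3 :=
  (m.1.1 (ii' c) (ii c) / m.1.1 (ii c) (ii c), m.1.2.1 (jj' c) (jj c) / m.1.2.1 (jj c) (jj c), m.1.2.2)

def src (c : Bool × Bool) : Set Tot := {m | m.1.1 (ii c) (ii c) ≠ 0 ∧ m.1.2.1 (jj c) (jj c) ≠ 0}
def tgt : Set E3 := {p | ‖p.2.2‖ < 1}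

lemma isOpen_tgt : IsOpen tgt := isOpen_lt (by fun_prop) continuous_const

lemma cont_coord1 (i j : Fin 2) : Continuous fun m : Tot => m.1.1 i j :=
  (continuous_apply j).comp ((continuous_apply i).comp (continuous_fst.comp continuous_subtype_val))
lemma cont_coord2 (i j : Fin 3) : Continuous fun m : Tot => m.1.2.1 i j :=
  (continuous_apply j).comp ((continuous_apply i).comp
    (continuous_fst.comp (continuous_snd.comp continuous_subtype_val)))
lemma cont_t : Continuous fun m : Tot => m.1.2.2 :=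
  continuous_snd.comp (continuous_snd.comp continuous_subtype_val)

lemma isOpen_src (c : Bool × Bool) : IsOpen (src c) :=
  (isOpen_ne_fun (cont_coord1 _ _) continuous_const).inter
    (isOpen_ne_fun (cont_coord2 _ _) continuous_const)

lemma fwd_bwd (c : Bool × Bool) {p : E3} (hp : p ∈ tgt) : fwd c (bwd c p) = p := by
  have h : clampT p = p := clampT_of_lt hp
  unfold fwd bwd
  simp only [h]
  rw [prj_ratio (by rw [Xf_ii]; exact one_ne_zero), prj_ratio (by rw [Yf_jj]; exact one_ne_zero),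
    Xf_ii, Yf_jj, Xf_ii', Yf_jj', div_one, div_one]

lemma bwd_mem (c : Bool × Bool) (p : E3) : bwd c p ∈ src c := by
  constructor
  · show prj (Xf c (clampT p)) _ _ ≠ 0
    rw [prj_diag_ne, Xf_ii]; exact one_ne_zero
  · show prj (Yf c (clampT p)) _ _ ≠ 0
    rw [prj_diag_ne, Yf_jj]; exact one_ne_zero

lemma fwd_mem (c : Bool × Bool) (m : Tot) : fwd c m ∈ tgt := by
  obtain ⟨m, x, y, _, _, ht, _⟩ := m
  exact ht

lemma bwd_fwd (c : Bool × Bool) {m : Tot} (hm : m ∈ src c) : bwd c (fwd c m) = m := by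
  have hcl : clampT (fwd c m) = fwd c m := clampT_of_lt (fwd_mem c m)
  obtain ⟨⟨P, Q, t⟩, x, y, hx, hy, ht, he, hP, hQ⟩ := m
  simp only at ht he hP hQ
  subst hP; subst hQ
  obtain ⟨h1, h2⟩ := hm
  simp only at h1 h2
  have hx' : x (ii c) ≠ 0 := prj_diag_ne.1 h1
  have hy' : y (jj c) ≠ 0 := prj_diag_ne.1 h2
  have hf : fwd c ⟨(prj x, prj y, t), x, y, hx, hy, ht, he, rfl, rfl⟩ =
      (x (ii' c) / x (ii c), y (jj' c) / y (jj c), t) := by
    unfold fwd
    simp only [prj_ratio hx', prj_ratio hy']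
  rw [hf] at hcl ⊢
  obtain ⟨r1, r2⟩ := recover c he hx' hy'
  apply Subtype.ext
  unfold bwd
  simp only [hcl]
  have e1 : prj (Xf c (x (ii' c) / x (ii c), y (jj' c) / y (jj c), t)) = prj x := by
    conv_rhs => rw [r1]
    exact (prj_smul _ hx').symm
  have e2 : prj (Yf c (x (ii' c) / x (ii c), y (jj' c) / y (jj c), t)) = prj y := by
    conv_rhs => rw [r2]
    exact (prj_smul _ hy').symm
  rw [e1, e2]

lemma continuous_prj_comp {k : ℕ} {Y : Type} [TopologicalSpace Y] (f : Y → Fin k → ℂ) (i : Fin k)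
    (hf : Continuous f) (hi : ∀ y, f y i ≠ 0) : Continuous fun y => prj (f y) := by
  refine continuous_pi fun a => continuous_pi fun b => ?_
  unfold prj
  refine Continuous.div ?_ ?_ ?_
  · exact ((continuous_apply a).comp hf).mul (Complex.continuous_conj.comp ((continuous_apply b).comp hf))
  · exact Complex.continuous_ofReal.comp (continuous_finsetSum _ fun l _ =>
      Complex.continuous_normSq.comp ((continuous_apply l).comp hf))
  · intro y
    exact Complex.ofReal_ne_zero.2 (sum_normSq_pos (hi y)).ne'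

lemma continuous_Xf (c : Bool × Bool) : Continuous (Xf c) :=
  continuous_pi fun i => (contDiff_Xf c i).continuous
lemma continuous_Yf (c : Bool × Bool) : Continuous (Yf c) :=
  continuous_pi fun i => (contDiff_Yf c i).continuous

def valT (m : Tot) : (Fin 2 → Fin 2 → ℂ) × (Fin 3 → Fin 3 → ℂ) × ℂ := m.1

lemma isInducing_valT : IsInducing valT := ⟨rfl⟩

lemma continuousOn_bwd (c : Bool × Bool) : ContinuousOn (bwd c) tgt := by
  rw [continuousOn_iff_continuous_domRestrict, isInducing_valT.continuous_iff]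
  have h : (valT ∘ tgt.domRestrict (bwd c)) = fun p : tgt =>
      (prj (Xf c p.1), prj (Yf c p.1), p.1.2.2) := by
    funext p
    have hp : clampT p.1 = p.1 := clampT_of_lt p.2
    show (prj (Xf c (clampT p.1)), prj (Yf c (clampT p.1)), (clampT p.1).2.2) = _
    rw [hp]
  rw [h]
  refine Continuous.prodMk ?_ (Continuous.prodMk ?_ ?_)
  · exact continuous_prj_comp _ (ii c) ((continuous_Xf c).comp continuous_subtype_val)
      (fun p => by rw [Xf_ii]; exact one_ne_zero)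
  · exact continuous_prj_comp _ (jj c) ((continuous_Yf c).comp continuous_subtype_val)
      (fun p => by rw [Yf_jj]; exact one_ne_zero)
  · fun_prop

lemma continuousOn_fwd (c : Bool × Bool) : ContinuousOn (fwd c) (src c) := by
  refine ContinuousOn.prodMk ?_ (ContinuousOn.prodMk ?_ ?_)
  · exact (cont_coord1 _ _).continuousOn.div (cont_coord1 _ _).continuousOn fun m hm => hm.1
  · exact (cont_coord2 _ _).continuousOn.div (cont_coord2 _ _).continuousOn fun m hm => hm.2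
  · exact cont_t.continuousOn

/-- the chart `c`. -/
noncomputable def ch (c : Bool × Bool) : OpenPartialHomeomorph Tot E3 where
  toFun := fwd c
  invFun := bwd c
  source := src c
  target := tgt
  map_source' := fun m _ => fwd_mem c m
  map_target' := fun p _ => bwd_mem c p
  left_inv' := fun _ hm => bwd_fwd c hm
  right_inv' := fun _ hp => fwd_bwd c hp
  open_source := isOpen_src c
  open_target := isOpen_tgt
  continuousOn_toFun := continuousOn_fwd c
  continuousOn_invFun := continuousOn_bwd c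

lemma exists_src (m : Tot) : ∃ c, m ∈ src c := by
  obtain ⟨⟨P, Q, t⟩, x, y, hx, hy, ht, he, hP, hQ⟩ := m
  simp only at ht he hP hQ
  subst hP; subst hQ
  have key : ∃ c, x (ii c) ≠ 0 ∧ y (jj c) ≠ 0 := by
    by_contra hcon
    push Not at hcon
    have h00 := hcon (false, false)
    have h01 := hcon (false, true)
    have h10 := hcon (true, false)
    have h11 := hcon (true, true)
    simp only [ii, jj, Bool.false_eq_true, if_false, if_true] at h00 h01 h10 h11
    unfold Eqn at he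
    by_cases hx0 : x 0 = 0
    · have hx1 : x 1 ≠ 0 := by
        intro hx1
        apply hx
        funext i; fin_cases i <;> simp [hx0, hx1]
      have hy2 := h10 hx1
      have hy1 := h11 hx1
      rw [hx0, hy1, hy2] at he
      have hy0 : y 0 = 0 := by
        have : x 1 ^ 2 * y 0 = 0 := by linear_combination he
        exact (mul_eq_zero.1 this).resolve_left (pow_ne_zero 2 hx1)
      apply hy
      funext j; fin_cases j <;> simp [hy0, hy1, hy2]
    · have hy2 := h00 hx0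
      have hy0 := h01 hx0
      rw [hy0, hy2] at he
      have hy1 : y 1 = 0 := by
        have : x 0 ^ 2 * y 1 = 0 := by linear_combination -he
        exact (mul_eq_zero.1 this).resolve_left (pow_ne_zero 2 hx0)
      apply hy
      funext j; fin_cases j <;> simp [hy0, hy1, hy2]
  obtain ⟨c, h1, h2⟩ := key
  exact ⟨c, prj_diag_ne.2 h1, prj_diag_ne.2 h2⟩

noncomputable instance : ChartedSpace E3 Tot where
  atlas := Set.range ch
  chartAt m := ch (Classical.choose (exists_src m))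
  mem_chart_source m := Classical.choose_spec (exists_src m)
  chart_mem_atlas _ := ⟨_, rfl⟩

/-- transition maps -/
lemma fwd_bwd_eq (c d : Bool × Bool) {p : E3} (hp : p ∈ tgt) (h : bwd c p ∈ src d) :
    Xf c p (ii d) ≠ 0 ∧ Yf c p (jj d) ≠ 0 ∧
      fwd d (bwd c p) = (Xf c p (ii' d) / Xf c p (ii d), Yf c p (jj' d) / Yf c p (jj d), p.2.2) := by
  have hc : clampT p = p := clampT_of_lt hp
  obtain ⟨h1, h2⟩ := h
  unfold bwd at h1 h2
  simp only [hc] at h1 h2
  have h1' := prj_diag_ne.1 h1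
  have h2' := prj_diag_ne.1 h2
  refine ⟨h1', h2', ?_⟩
  unfold fwd bwd
  simp only [hc, prj_ratio h1', prj_ratio h2']

lemma bwd_mem_src_iff (c d : Bool × Bool) {p : E3} (hp : p ∈ tgt) :
    bwd c p ∈ src d ↔ Xf c p (ii d) ≠ 0 ∧ Yf c p (jj d) ≠ 0 := by
  have hc : clampT p = p := clampT_of_lt hp
  show prj (Xf c (clampT p)) (ii d) (ii d) ≠ 0 ∧ prj (Yf c (clampT p)) (jj d) (jj d) ≠ 0 ↔ _
  rw [hc, prj_diag_ne, prj_diag_ne]

instance : IsManifold 𝓘(ℂ, E3) ω Tot := by
  refine isManifold_of_contDiffOn _ _ _ ?_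
  rintro _ _ ⟨c, rfl⟩ ⟨d, rfl⟩
  have hs : (𝓘(ℂ, E3).symm ⁻¹' ((ch c).symm ≫ₕ ch d).source ∩ Set.range 𝓘(ℂ, E3)) ⊆
      {p : E3 | p ∈ tgt ∧ Xf c p (ii d) ≠ 0 ∧ Yf c p (jj d) ≠ 0} := by
    rintro p ⟨hp, _⟩
    have hp' : p ∈ ((ch c).symm ≫ₕ ch d).source := hp
    rw [OpenPartialHomeomorph.trans_source] at hp'
    obtain ⟨h1, h2⟩ := hp'
    have h1' : p ∈ tgt := h1
    have h2' : bwd c p ∈ src d := h2
    exact ⟨h1', (bwd_mem_src_iff c d h1').1 h2'⟩
  have hF : ContDiffOn ℂ ω (fun p : E3 => (Xf c p (ii' d) / Xf c p (ii d),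
      Yf c p (jj' d) / Yf c p (jj d), p.2.2))
      {p : E3 | p ∈ tgt ∧ Xf c p (ii d) ≠ 0 ∧ Yf c p (jj d) ≠ 0} := by
    refine ContDiffOn.prodMk ?_ (ContDiffOn.prodMk ?_ ?_)
    · exact (contDiff_Xf c _).contDiffOn.div (contDiff_Xf c _).contDiffOn fun p hp => hp.2.1
    · exact (contDiff_Yf c _).contDiffOn.div (contDiff_Yf c _).contDiffOn fun p hp => hp.2.2
    · exact (contDiff_snd.comp contDiff_snd).contDiffOn
  refine (hF.mono hs).congr fun p hp => ?_
  obtain ⟨h1, h2, h3⟩ := hs hp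
  exact (fwd_bwd_eq c d h1 ((bwd_mem_src_iff c d h1).2 ⟨h2, h3⟩)).2.2

/-! ### the family -/

lemma mem_atlas (c : Bool × Bool) : ch c ∈ atlas E3 Tot := ⟨c, rfl⟩

lemma contMDiffOn_fwd (c : Bool × Bool) : ContMDiffOn 𝓘(ℂ, E3) 𝓘(ℂ, E3) ω (fwd c) (src c) :=
  contMDiffOn_of_mem_maximalAtlas (e := ch c) (IsManifold.subset_maximalAtlas (mem_atlas c))

lemma contMDiffOn_bwd (c : Bool × Bool) : ContMDiffOn 𝓘(ℂ, E3) 𝓘(ℂ, E3) ω (bwd c) tgt :=
  contMDiffOn_symm_of_mem_maximalAtlas (e := ch c) (IsManifold.subset_maximalAtlas (mem_atlas c))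

/-- the projection to the disc -/
def tt (m : Tot) : ℂ := m.1.2.2

lemma fwd_t (c : Bool × Bool) (m : Tot) : (fwd c m).2.2 = tt m := rfl

lemma tt_bwd (c : Bool × Bool) {p : E3} (hp : p ∈ tgt) : tt (bwd c p) = p.2.2 := by
  show (clampT p).2.2 = _
  rw [clampT_of_lt hp]

/-- a function which is analytic in each chart is holomorphic. -/
lemma contMDiffOn_comp_fwd (c : Bool × Bool) {Φ : E3 → ℂ} {A : Set E3} (hΦ : ContDiffOn ℂ ω Φ A)
    {S : Set Tot} (hS : S ⊆ src c) (hA : ∀ m ∈ S, fwd c m ∈ A) :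
    ContMDiffOn 𝓘(ℂ, E3) 𝓘(ℂ, ℂ) ω (fun m => Φ (fwd c m)) S :=
  (contMDiffOn_iff_contDiffOn.2 hΦ).comp ((contMDiffOn_fwd c).mono hS) hA

lemma contMDiff_tt : ContMDiff 𝓘(ℂ, E3) 𝓘(ℂ, ℂ) ω tt := by
  intro m
  obtain ⟨c, hc⟩ := exists_src m
  have h1 : ContMDiffOn 𝓘(ℂ, E3) 𝓘(ℂ, ℂ) ω (fun m => (fun p : E3 => p.2.2) (fwd c m)) (src c) :=
    contMDiffOn_comp_fwd c (Φ := fun p : E3 => p.2.2) (A := Set.univ)
      (contDiff_snd.comp contDiff_snd).contDiffOn subset_rfl (fun _ _ => trivial)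
  exact (h1 m hc).contMDiffAt ((isOpen_src c).mem_nhds hc)

lemma omega_ne_zero : (ω : WithTop ℕ∞) ≠ 0 := by simp

lemma submersion_tt (m : Tot) : Function.Surjective (mfderiv 𝓘(ℂ, E3) 𝓘(ℂ, ℂ) tt m) := by
  obtain ⟨c, hc⟩ := exists_src m
  set p := fwd c m with hp
  have hpt : p ∈ tgt := fwd_mem c m
  have hb : bwd c p = m := bwd_fwd c hc
  have h1 : MDifferentiableAt 𝓘(ℂ, E3) 𝓘(ℂ, E3) (bwd c) p :=
    ((contMDiffOn_bwd c p hpt).contMDiffAt (isOpen_tgt.mem_nhds hpt)).mdifferentiableAt omega_ne_zero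
  have h2 : MDifferentiableAt 𝓘(ℂ, E3) 𝓘(ℂ, ℂ) tt (bwd c p) :=
    (contMDiff_tt _).mdifferentiableAt omega_ne_zero
  have h3 := mfderiv_comp p h2 h1
  have h4 : (tt ∘ bwd c) =ᶠ[𝓝 p] fun q : E3 => q.2.2 := by
    filter_upwards [isOpen_tgt.mem_nhds hpt] with q hq using tt_bwd c hq
  rw [h4.mfderiv_eq, mfderiv_eq_fderiv] at h3
  have h5 : fderiv ℂ (fun q : E3 => q.2.2) p =
      (ContinuousLinearMap.snd ℂ ℂ ℂ).comp (ContinuousLinearMap.snd ℂ ℂ (ℂ × ℂ)) :=
    ((ContinuousLinearMap.snd ℂ ℂ ℂ).comp (ContinuousLinearMap.snd ℂ ℂ (ℂ × ℂ))).fderiv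
  rw [h5, hb] at h3
  intro w
  refine ⟨(mfderiv 𝓘(ℂ, E3) 𝓘(ℂ, E3) (bwd c) p : E3 →L[ℂ] E3) ((0, 0, w) : E3), ?_⟩
  have h6 := congrArg (fun L : E3 →L[ℂ] ℂ => L ((0, 0, w) : E3)) h3
  exact h6.symm

/-- closed polydisc -/
def PB (K : Set ℂ) : Set E3 := closedBall 0 1 ×ˢ closedBall 0 1 ×ˢ K

lemma mem_image_bwd (m : Tot) : ∃ c, m ∈ src c ∧ ‖(fwd c m).1‖ ≤ 1 ∧ ‖(fwd c m).2.1‖ ≤ 1 := by
  obtain ⟨⟨P, Q, t⟩, x, y, hx, hy, ht, he, hP, hQ⟩ := m
  simp only at ht he hP hQ
  subst hP; subst hQ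
  have hf : ∀ c, x (ii c) ≠ 0 → y (jj c) ≠ 0 →
      fwd c ⟨(prj x, prj y, t), x, y, hx, hy, ht, he, rfl, rfl⟩ =
      (x (ii' c) / x (ii c), y (jj' c) / y (jj c), t) := by
    intro c hx' hy'
    unfold fwd
    simp only [prj_ratio hx', prj_ratio hy']
  have key : ∃ c, x (ii c) ≠ 0 ∧ y (jj c) ≠ 0 ∧ ‖x (ii' c)‖ ≤ ‖x (ii c)‖ ∧
      ‖y (jj' c)‖ ≤ ‖y (jj c)‖ := by
    obtain ⟨s, hs0, hs⟩ : ∃ s : Bool, x (ii (s, false)) ≠ 0 ∧
        ‖x (ii' (s, false))‖ ≤ ‖x (ii (s, false))‖ := by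
      rcases le_total ‖x 0‖ ‖x 1‖ with h | h
      · refine ⟨true, ?_, by simpa [ii, ii'] using h⟩
        simp only [ii, if_true]
        intro h1
        rw [h1, norm_zero] at h
        apply hx
        funext i; fin_cases i
        · simpa using h
        · simpa using h1
      · refine ⟨false, ?_, by simpa [ii, ii'] using h⟩
        simp only [ii, Bool.false_eq_true, if_false]
        intro h1
        rw [h1, norm_zero] at h
        apply hx
        funext i; fin_cases i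
        · simpa using h1
        · simpa using h
    have hnn : ¬ (y (jj (s, false)) = 0 ∧ y (jj (s, true)) = 0) := by
      rintro ⟨h1, h2⟩
      obtain ⟨c, hc1, hc2⟩ : ∃ c : Bool × Bool, c.1 = s ∧ y (jj c) ≠ 0 := by
        by_contra hcon
        push Not at hcon
        unfold Eqn at he
        apply hy
        cases s
        · simp only [jj, ii, Bool.false_eq_true, if_false, if_true] at h1 h2 hs0
          rw [h1, h2] at he
          have hy1 : y 1 = 0 := by
            have : x 0 ^ 2 * y 1 = 0 := by linear_combination -he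
            exact (mul_eq_zero.1 this).resolve_left (pow_ne_zero 2 hs0)
          funext j; fin_cases j <;> simp [h1, h2, hy1]
        · simp only [jj, ii, Bool.false_eq_true, if_false, if_true] at h1 h2 hs0
          rw [h1, h2] at he
          have hy0 : y 0 = 0 := by
            have : x 1 ^ 2 * y 0 = 0 := by linear_combination he
            exact (mul_eq_zero.1 this).resolve_left (pow_ne_zero 2 hs0)
          funext j; fin_cases j <;> simp [h1, h2, hy0]
      rcases c with ⟨c1, _ | _⟩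
      · simp only at hc1; subst hc1; exact hc2 h1
      · simp only at hc1; subst hc1; exact hc2 h2
    have e1 : jj' (s, false) = jj (s, true) := by cases s <;> rfl
    have e2 : jj' (s, true) = jj (s, false) := by cases s <;> rfl
    have e3 : ii (s, true) = ii (s, false) := by cases s <;> rfl
    have e4 : ii' (s, true) = ii' (s, false) := by cases s <;> rfl
    rcases le_total ‖y (jj (s, true))‖ ‖y (jj (s, false))‖ with h | h
    · refine ⟨(s, false), hs0, ?_, hs, by rw [e1]; exact h⟩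
      intro h1
      rw [h1, norm_zero, norm_le_zero_iff] at h
      exact hnn ⟨h1, h⟩
    · refine ⟨(s, true), by rw [e3]; exact hs0, ?_, by rw [e3, e4]; exact hs, by rw [e2]; exact h⟩
      intro h1
      rw [h1, norm_zero, norm_le_zero_iff] at h
      exact hnn ⟨h, h1⟩
  obtain ⟨c, h1, h2, h3, h4⟩ := key
  refine ⟨c, ⟨prj_diag_ne.2 h1, prj_diag_ne.2 h2⟩, ?_, ?_⟩
  · rw [hf c h1 h2]
    simp only [norm_div]
    exact div_le_one_of_le₀ h3 (norm_nonneg _)
  · rw [hf c h1 h2]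
    simp only [norm_div]
    exact div_le_one_of_le₀ h4 (norm_nonneg _)

lemma proper_tt (K : Set ℂ) (hK : K ⊆ ball 0 1) (hKc : IsCompact K) : IsCompact (tt ⁻¹' K) := by
  have hsub : PB K ⊆ tgt := by
    rintro p ⟨_, _, h⟩
    have := hK h
    simpa [tgt] using this
  have h1 : tt ⁻¹' K = ⋃ c : Bool × Bool, bwd c '' (PB K) := by
    ext m
    simp only [Set.mem_iUnion, Set.mem_image]
    constructor
    · intro hm
      obtain ⟨c, hc, h2, h3⟩ := mem_image_bwd m
      refine ⟨c, fwd c m, ⟨by simpa using h2, by simpa using h3, hm⟩, bwd_fwd c hc⟩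
    · rintro ⟨c, p, hp, rfl⟩
      show tt (bwd c p) ∈ K
      rw [tt_bwd c (hsub hp)]
      exact hp.2.2
  rw [h1]
  refine isCompact_iUnion fun c => ?_
  exact ((isCompact_closedBall _ _).prod ((isCompact_closedBall _ _).prod hKc)).image_of_continuousOn
    ((continuousOn_bwd c).mono hsub)

/-- a point lying in all four charts -/
noncomputable def basePt (t : ℂ) : Tot := bwd (false, false) (1, 1, t)

lemma basePt_mem (c : Bool × Bool) {t : ℂ} (ht : ‖t‖ < 1) : basePt t ∈ src c := by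
  have hp : ((1, 1, t) : E3) ∈ tgt := ht
  unfold basePt
  rw [bwd_mem_src_iff _ _ hp]
  have h1 : (1 : ℂ) + t ≠ 0 := by
    intro h
    have : t = -1 := by linear_combination h
    rw [this] at ht
    simp at ht
  rcases c with ⟨_ | _, _ | _⟩ <;> simp [Xf, Yf, ii, jj, h1]

lemma connected_tt (t : ℂ) (ht : t ∈ ball (0 : ℂ) 1) : IsConnected (tt ⁻¹' {t}) := by
  have ht' : ‖t‖ < 1 := by simpa using ht
  have h1 : tt ⁻¹' {t} = ⋃ c : Bool × Bool, bwd c '' (Set.univ ×ˢ Set.univ ×ˢ {t}) := by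
    ext m
    simp only [Set.mem_iUnion, Set.mem_image]
    constructor
    · intro hm
      obtain ⟨c, hc⟩ := exists_src m
      exact ⟨c, fwd c m, ⟨trivial, trivial, hm⟩, bwd_fwd c hc⟩
    · rintro ⟨c, p, hp, rfl⟩
      have hpt : p.2.2 = t := hp.2.2
      show tt (bwd c p) ∈ ({t} : Set ℂ)
      rw [tt_bwd c (show ‖p.2.2‖ < 1 by rw [hpt]; exact ht')]
      exact hpt
  have hmem : ∀ c, basePt t ∈ bwd c '' (Set.univ ×ˢ Set.univ ×ˢ {t}) := by
    intro c
    refine ⟨fwd c (basePt t), ⟨trivial, trivial, ?_⟩, bwd_fwd c (basePt_mem c ht')⟩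
    show tt (basePt t) ∈ ({t} : Set ℂ)
    unfold basePt
    rw [tt_bwd _ (show ((1, 1, t) : E3) ∈ tgt from ht')]
    rfl
  refine ⟨⟨basePt t, ?_⟩, ?_⟩
  · rw [h1]; exact Set.mem_iUnion.2 ⟨(false, false), hmem _⟩
  · rw [h1]
    refine isPreconnected_iUnion ⟨basePt t, Set.mem_iInter.2 hmem⟩ fun c => ?_
    refine (isPreconnected_univ.prod (isPreconnected_univ.prod isPreconnected_singleton)).image _ ?_
    refine (continuousOn_bwd c).mono ?_
    rintro p ⟨_, _, h⟩
    have hpt : p.2.2 = t := h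
    show ‖p.2.2‖ < 1
    rw [hpt]; exact ht'

/-! ### Kähler metrics on the fibres -/

lemma rep_f (m : Tot) : ∃ (x : Fin 2 → ℂ) (y : Fin 3 → ℂ), Eqn x y (tt m) ∧
    (∀ c, m ∈ src c ↔ x (ii c) ≠ 0 ∧ y (jj c) ≠ 0) ∧
    ∀ c, m ∈ src c → (∀ i, Xf c (fwd c m) i = x i / x (ii c)) ∧
      (∀ j, Yf c (fwd c m) j = y j / y (jj c)) := by
  obtain ⟨⟨P, Q, t⟩, x, y, hx, hy, ht, he, hP, hQ⟩ := m
  simp only at ht he hP hQ
  subst hP; subst hQ
  have hiff : ∀ c, (⟨(prj x, prj y, t), x, y, hx, hy, ht, he, rfl, rfl⟩ : Tot) ∈ src c ↔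
      x (ii c) ≠ 0 ∧ y (jj c) ≠ 0 := by
    intro c
    show prj x (ii c) (ii c) ≠ 0 ∧ prj y (jj c) (jj c) ≠ 0 ↔ _
    rw [prj_diag_ne, prj_diag_ne]
  refine ⟨x, y, he, hiff, ?_⟩
  intro c hc
  obtain ⟨hx', hy'⟩ := (hiff c).1 hc
  have hf : fwd c ⟨(prj x, prj y, t), x, y, hx, hy, ht, he, rfl, rfl⟩ =
      (x (ii' c) / x (ii c), y (jj' c) / y (jj c), t) := by
    unfold fwd
    simp only [prj_ratio hx', prj_ratio hy']
  obtain ⟨r1, r2⟩ := recover c he hx' hy'
  rw [hf]
  constructor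
  · intro i
    rw [eq_div_iff hx']
    have := congrFun r1 i
    rw [mul_comm]
    exact this.symm
  · intro j
    rw [eq_div_iff hy']
    have := congrFun r2 j
    rw [mul_comm]
    exact this.symm

/-- products of homogeneous coordinates (Segre) in chart coordinates -/
def sgr (c : Bool × Bool) (k : Fin 2 × Fin 3) (p : E3) : ℂ := Xf c p k.1 * Yf c p k.2

noncomputable def rhoE (c : Bool × Bool) (p : E3) : ℝ :=
  Real.log (∑ k : Fin 2 × Fin 3, Complex.normSq (sgr c k p))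

lemma contDiff_sgr (c : Bool × Bool) (k : Fin 2 × Fin 3) : ContDiff ℂ ω (sgr c k) :=
  (contDiff_Xf c k.1).mul (contDiff_Yf c k.2)

lemma sgr_one (c : Bool × Bool) (p : E3) : sgr c (ii c, jj c) p = 1 := by
  simp [sgr, Xf_ii, Yf_jj]

lemma sum_sgr_pos (c : Bool × Bool) (p : E3) :
    0 < ∑ k : Fin 2 × Fin 3, Complex.normSq (sgr c k p) := by
  refine lt_of_lt_of_le one_pos ?_
  calc (1 : ℝ) = Complex.normSq (sgr c (ii c, jj c) p) := by rw [sgr_one]; simp
    _ ≤ _ := Finset.single_le_sum (f := fun k => Complex.normSq (sgr c k p))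
      (fun k _ => Complex.normSq_nonneg _) (Finset.mem_univ _)

lemma contDiff_normSq : ContDiff ℝ ∞ (fun z : ℂ => Complex.normSq z) := by
  have h : (fun z : ℂ => Complex.normSq z) = fun z : ℂ => z.re * z.re + z.im * z.im := by
    funext z; exact Complex.normSq_apply z
  rw [h]
  exact (Complex.reCLM.contDiff.mul Complex.reCLM.contDiff).add
    (Complex.imCLM.contDiff.mul Complex.imCLM.contDiff)

lemma contDiff_rhoE (c : Bool × Bool) : ContDiff ℝ ∞ (rhoE c) := by
  unfold rhoE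
  refine ContDiff.log ?_ (fun p => (sum_sgr_pos c p).ne')
  refine ContDiff.sum fun k _ => ?_
  exact contDiff_normSq.comp (((contDiff_sgr c k).restrict_scalars ℝ).of_le (by simp))

instance realManifold : IsManifold 𝓘(ℝ, E3) ∞ Tot := by
  refine isManifold_of_contDiffOn _ _ _ ?_
  rintro _ _ ⟨c, rfl⟩ ⟨d, rfl⟩
  have hs : (𝓘(ℝ, E3).symm ⁻¹' ((ch c).symm ≫ₕ ch d).source ∩ Set.range 𝓘(ℝ, E3)) ⊆
      {p : E3 | p ∈ tgt ∧ Xf c p (ii d) ≠ 0 ∧ Yf c p (jj d) ≠ 0} := by
    rintro p ⟨hp, _⟩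
    have hp' : p ∈ ((ch c).symm ≫ₕ ch d).source := hp
    rw [OpenPartialHomeomorph.trans_source] at hp'
    obtain ⟨h1, h2⟩ := hp'
    have h1' : p ∈ tgt := h1
    have h2' : bwd c p ∈ src d := h2
    exact ⟨h1', (bwd_mem_src_iff c d h1').1 h2'⟩
  have hF : ContDiffOn ℂ ω (fun p : E3 => (Xf c p (ii' d) / Xf c p (ii d),
      Yf c p (jj' d) / Yf c p (jj d), p.2.2))
      {p : E3 | p ∈ tgt ∧ Xf c p (ii d) ≠ 0 ∧ Yf c p (jj d) ≠ 0} := by
    refine ContDiffOn.prodMk ?_ (ContDiffOn.prodMk ?_ ?_)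
    · exact (contDiff_Xf c _).contDiffOn.div (contDiff_Xf c _).contDiffOn fun p hp => hp.2.1
    · exact (contDiff_Yf c _).contDiffOn.div (contDiff_Yf c _).contDiffOn fun p hp => hp.2.2
    · exact (contDiff_snd.comp contDiff_snd).contDiffOn
  refine (((hF.restrict_scalars ℝ).of_le (by simp)).mono hs).congr fun p hp => ?_
  obtain ⟨h1, h2, h3⟩ := hs hp
  exact (fwd_bwd_eq c d h1 ((bwd_mem_src_iff c d h1).2 ⟨h2, h3⟩)).2.2

lemma contMDiffOn_rho (c : Bool × Bool) :
    ContMDiffOn 𝓘(ℝ, E3) 𝓘(ℝ, ℝ) ∞ (fun m => rhoE c (fwd c m)) (src c) := by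
  have h1 : ContMDiffOn 𝓘(ℝ, E3) 𝓘(ℝ, E3) ∞ (fwd c) (src c) :=
    contMDiffOn_of_mem_maximalAtlas (e := ch c) (IsManifold.subset_maximalAtlas (mem_atlas c))
  have h2 : ContMDiffOn 𝓘(ℝ, E3) 𝓘(ℝ, ℝ) ∞ (rhoE c) Set.univ :=
    contMDiffOn_iff_contDiffOn.2 (contDiff_rhoE c).contDiffOn
  exact h2.comp h1 (fun _ _ => Set.mem_univ _)

/-- coordinates along a holomorphic disc -/
lemma disc_coord {c : Bool × Bool} {S : Set Tot} (hS : S ⊆ src c) {r : ℝ} {f : ℂ → Tot}
    (hf : IsHolDisc E3 S r f) : DifferentiableOn ℂ (fun ζ => fwd c (f ζ)) (ball 0 r) := by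
  have h1 : ContMDiffOn 𝓘(ℂ, ℂ) 𝓘(ℂ, E3) ω (fun ζ => fwd c (f ζ)) (ball 0 r) :=
    (contMDiffOn_fwd c).comp hf.1 (fun ζ hζ => hS (hf.2 hζ))
  exact (contMDiffOn_iff_contDiffOn.1 h1).differentiableOn omega_ne_zero

lemma deriv_coord_ne_zero {c : Bool × Bool} {S : Set Tot} (hS : S ⊆ src c) {r : ℝ} (hr : 0 < r)
    {f : ℂ → Tot} (hf : IsHolDisc E3 S r f) (hd : mfderiv 𝓘(ℂ, ℂ) 𝓘(ℂ, E3) f 0 ≠ 0) :
    fderiv ℂ (fun ζ => fwd c (f ζ)) 0 ≠ 0 := by
  intro h0
  apply hd
  set u : ℂ → E3 := fun ζ => fwd c (f ζ) with hu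
  have hmem : (0 : ℂ) ∈ ball (0 : ℂ) r := mem_ball_self hr
  have h1 : f =ᶠ[𝓝 0] (bwd c ∘ u) := by
    filter_upwards [isOpen_ball.mem_nhds hmem] with ζ hζ
    exact (bwd_fwd c (hS (hf.2 hζ))).symm
  have h2 : DifferentiableAt ℂ u 0 := (disc_coord hS hf).differentiableAt (isOpen_ball.mem_nhds hmem)
  have hut : u 0 ∈ tgt := fwd_mem c _
  have h3 : MDifferentiableAt 𝓘(ℂ, E3) 𝓘(ℂ, E3) (bwd c) (u 0) :=
    ((contMDiffOn_bwd c (u 0) hut).contMDiffAt (isOpen_tgt.mem_nhds hut)).mdifferentiableAt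
      omega_ne_zero
  have h4 := mfderiv_comp (0 : ℂ) h3 h2.mdifferentiableAt
  rw [mfderiv_eq_fderiv, h0] at h4
  rw [h1.mfderiv_eq, h4]
  exact ContinuousLinearMap.comp_zero _

lemma kahler_fibre (t : ℂ) : IsKahlerSubmanifold E3 (tt ⁻¹' {t}) := by
  refine ⟨Bool × Bool, src, fun c m => rhoE c (fwd c m), isOpen_src,
    fun x _ => exists_src x, contMDiffOn_rho, ?_, ?_⟩
  · intro c r f hr hf hd
    have hS : src c ∩ tt ⁻¹' {t} ⊆ src c := Set.inter_subset_left
    have hu := disc_coord hS hf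
    set u : ℂ → E3 := fun ζ => fwd c (f ζ) with hudef
    have hmem : (0 : ℂ) ∈ ball (0 : ℂ) r := mem_ball_self hr
    have hu0 : DifferentiableAt ℂ u 0 := hu.differentiableAt (isOpen_ball.mem_nhds hmem)
    have hF : ∀ k, DifferentiableOn ℂ (fun ζ => sgr c k (u ζ)) (ball 0 r) := fun k =>
      ((contDiff_sgr c k).differentiable omega_ne_zero).comp_differentiableOn hu
    have hut : ∀ ζ ∈ ball (0 : ℂ) r, (u ζ).2.2 = t := fun ζ hζ => (hf.2 hζ).2
    have hne := deriv_coord_ne_zero hS hr hf hd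
    -- one of the two coordinate derivatives is nonzero
    have h1 : HasFDerivAt u (fderiv ℂ u 0) 0 := hu0.hasFDerivAt
    have d1 : HasDerivAt (fun ζ => (u ζ).1) ((fderiv ℂ u 0 1).1) 0 :=
      (h1.fst).hasDerivAt
    have d2 : HasDerivAt (fun ζ => (u ζ).2.1) ((fderiv ℂ u 0 1).2.1) 0 :=
      (h1.snd.fst).hasDerivAt
    have d3 : HasDerivAt (fun ζ => (u ζ).2.2) ((fderiv ℂ u 0 1).2.2) 0 :=
      (h1.snd.snd).hasDerivAt
    have d3' : (fderiv ℂ u 0 1).2.2 = 0 := by
      have : (fun ζ => (u ζ).2.2) =ᶠ[𝓝 0] fun _ => t := by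
        filter_upwards [isOpen_ball.mem_nhds hmem] with ζ hζ using hut ζ hζ
      have h2 := this.deriv_eq
      rw [d3.deriv, deriv_const] at h2
      exact h2
    have hcase : (fderiv ℂ u 0 1).1 ≠ 0 ∨ (fderiv ℂ u 0 1).2.1 ≠ 0 := by
      by_contra hcon
      push Not at hcon
      apply hne
      ext1
      exact Prod.ext hcon.1 (Prod.ext hcon.2 d3')
    have e1 : (fun ζ => sgr c (ii' c, jj c) (u ζ)) = fun ζ => (u ζ).1 := by
      funext ζ; simp [sgr, Xf_ii', Yf_jj]
    have e2 : (fun ζ => sgr c (ii c, jj' c) (u ζ)) = fun ζ => (u ζ).2.1 := by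
      funext ζ; simp [sgr, Xf_ii, Yf_jj']
    rcases hcase with h | h
    · exact laplace_log_pos (fun k ζ => sgr c k (u ζ)) hr hF (ii c, jj c)
        (fun ζ _ => sgr_one c _) (ii' c, jj c) (by rw [e1, d1.deriv]; exact h)
    · exact laplace_log_pos (fun k ζ => sgr c k (u ζ)) hr hF (ii c, jj c)
        (fun ζ _ => sgr_one c _) (ii c, jj' c) (by rw [e2, d2.deriv]; exact h)
  · intro c d r f hr hf
    have hS : src c ∩ src d ∩ tt ⁻¹' {t} ⊆ src c := fun x hx => hx.1.1
    have hu := disc_coord hS hf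
    set h : ℂ → ℂ := fun ζ => sgr c (ii d, jj d) (fwd c (f ζ)) with hh
    have hhd : DifferentiableOn ℂ h (ball 0 r) :=
      ((contDiff_sgr c (ii d, jj d)).differentiable omega_ne_zero).comp_differentiableOn hu
    have hmem : (0 : ℂ) ∈ ball (0 : ℂ) r := mem_ball_self hr
    have key : ∀ ζ ∈ ball (0 : ℂ) r, h ζ ≠ 0 ∧ rhoE c (fwd c (f ζ)) - rhoE d (fwd d (f ζ)) =
        Real.log (Complex.normSq (h ζ)) := by
      intro ζ hζ
      have hm := hf.2 hζ
      obtain ⟨x, y, _, hiff, hrep⟩ := rep_f (f ζ)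
      obtain ⟨hcx, hcy⟩ := (hiff c).1 hm.1.1
      obtain ⟨hdx, hdy⟩ := (hiff d).1 hm.1.2
      obtain ⟨rc1, rc2⟩ := hrep c hm.1.1
      obtain ⟨rd1, rd2⟩ := hrep d hm.1.2
      have hne : h ζ ≠ 0 := by
        simp only [hh, sgr, rc1, rc2]
        exact mul_ne_zero (div_ne_zero hdx hcx) (div_ne_zero hdy hcy)
      refine ⟨hne, ?_⟩
      have hs : ∀ k, sgr c k (fwd c (f ζ)) = h ζ * sgr d k (fwd d (f ζ)) := by
        intro k
        simp only [hh, sgr, rc1, rc2, rd1, rd2]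
        field_simp
      have hsum : ∑ k : Fin 2 × Fin 3, Complex.normSq (sgr c k (fwd c (f ζ))) =
          Complex.normSq (h ζ) * ∑ k : Fin 2 × Fin 3, Complex.normSq (sgr d k (fwd d (f ζ))) := by
        rw [Finset.mul_sum]
        exact Finset.sum_congr rfl fun k _ => by rw [hs k, map_mul]
      unfold rhoE
      rw [hsum, Real.log_mul (Complex.normSq_pos.2 hne).ne' (sum_sgr_pos d _).ne']
      ring
    have h0 := laplace_log_normSq hr hhd (key 0 hmem).1
    have hcongr : ∀ (u v : ℂ → ℝ), (∀ ζ ∈ ball (0 : ℂ) r, u ζ = v ζ) →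
        laplaceAtZero u = laplaceAtZero v := by
      intro u v huv
      have hlin : ∀ d : ℂ, ‖d‖ = 1 → (fun s : ℝ => u ((s : ℂ) * d)) =ᶠ[𝓝 0]
          fun s : ℝ => v ((s : ℂ) * d) := by
        intro d hd
        have : ∀ᶠ s in 𝓝 (0 : ℝ), |s| < r := by
          have : ContinuousAt (fun s : ℝ => |s|) 0 := continuous_abs.continuousAt
          exact this.eventually (gt_mem_nhds (by simpa using hr))
        filter_upwards [this] with s hs
        exact huv _ (by simp [hd, hs])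
      have l1 := (hlin 1 (by simp)).iteratedDeriv_eq 2
      have l2 := (hlin Complex.I (by simp)).iteratedDeriv_eq 2
      simp only [mul_one] at l1
      unfold laplaceAtZero
      rw [l1, l2]
    rw [hcongr _ _ fun ζ hζ => (key ζ hζ).2]
    exact h0

/-! ### the line bundle and the metrics -/

noncomputable def ggE (c d : Bool × Bool) (p : E3) : ℂ := Yf c p (jj d) / Xf c p (ii d)

/-- the line bundle `O(-1,1)` -/
noncomputable def LL : HolLineBundle E3 Tot where
  ι := Bool × Bool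
  U := src
  g := fun c d m => ggE c d (fwd c m)
  isOpen_U := isOpen_src
  cover := exists_src
  holomorphic := by
    intro c d
    refine contMDiffOn_comp_fwd c (Φ := ggE c d) (A := {p | Xf c p (ii d) ≠ 0}) ?_
      Set.inter_subset_left ?_
    · exact (contDiff_Yf c _).contDiffOn.div (contDiff_Xf c _).contDiffOn fun p hp => hp
    · intro m hm
      obtain ⟨x, y, _, hiff, hrep⟩ := rep_f m
      obtain ⟨hcx, hcy⟩ := (hiff c).1 hm.1
      obtain ⟨hdx, hdy⟩ := (hiff d).1 hm.2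
      show Xf c (fwd c m) (ii d) ≠ 0
      rw [(hrep c hm.1).1]
      exact div_ne_zero hdx hcx
  ne_zero := by
    intro c d m hm
    obtain ⟨x, y, _, hiff, hrep⟩ := rep_f m
    obtain ⟨hcx, hcy⟩ := (hiff c).1 hm.1
    obtain ⟨hdx, hdy⟩ := (hiff d).1 hm.2
    unfold ggE
    rw [(hrep c hm.1).1, (hrep c hm.1).2]
    exact div_ne_zero (div_ne_zero hdy hcy) (div_ne_zero hdx hcx)
  cocycle := by
    intro c d k m hm
    obtain ⟨x, y, _, hiff, hrep⟩ := rep_f m
    obtain ⟨hcx, hcy⟩ := (hiff c).1 hm.1.1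
    obtain ⟨hdx, hdy⟩ := (hiff d).1 hm.1.2
    obtain ⟨hkx, hky⟩ := (hiff k).1 hm.2
    unfold ggE
    rw [(hrep c hm.1.1).1, (hrep c hm.1.1).2, (hrep d hm.1.2).1, (hrep d hm.1.2).2,
      (hrep c hm.1.1).1, (hrep c hm.1.1).2]
    field_simp

/-- a global holomorphic section of the line bundle, in charts -/
def secE (c : Bool × Bool) (p : E3) : ℂ :=
  if c.1 then Yf c p 1 else Xf c p 1 * Yf c p 0 + p.2.2 * Yf c p 2

lemma differentiable_secE (c : Bool × Bool) : Differentiable ℂ (secE c) := by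
  unfold secE
  split_ifs
  · exact (contDiff_Yf c 1).differentiable omega_ne_zero
  · exact (((contDiff_Xf c 1).differentiable omega_ne_zero).mul
      ((contDiff_Yf c 0).differentiable omega_ne_zero)).add
      (differentiable_snd.snd.mul ((contDiff_Yf c 2).differentiable omega_ne_zero))

lemma secE_compat (c d : Bool × Bool) {m : Tot} (hc : m ∈ src c) (hd : m ∈ src d) :
    secE c (fwd c m) = ggE c d (fwd c m) * secE d (fwd d m) := by
  obtain ⟨x, y, he, hiff, hrep⟩ := rep_f m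
  obtain ⟨hcx, hcy⟩ := (hiff c).1 hc
  obtain ⟨hdx, hdy⟩ := (hiff d).1 hd
  unfold Eqn at he
  unfold secE ggE
  simp only [(hrep c hc).1, (hrep c hc).2, (hrep d hd).1, (hrep d hd).2, fwd_t]
  rcases c with ⟨_ | _, c2⟩ <;> rcases d with ⟨_ | _, d2⟩ <;>
    simp only [ii, Bool.false_eq_true, if_false, if_true] at hcx hdx ⊢
  · field_simp
  · field_simp
    linear_combination he
  · field_simp
    linear_combination -he
  · field_simp

lemma coord_compat (c d : Bool × Bool) {m : Tot} (hc : m ∈ src c) (hd : m ∈ src d)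
    (ht : tt m = 0) : (fwd c m).2.1 = ggE c d (fwd c m) ^ 2 * (fwd d m).2.1 := by
  obtain ⟨x, y, he, hiff, hrep⟩ := rep_f m
  obtain ⟨hcx, hcy⟩ := (hiff c).1 hc
  obtain ⟨hdx, hdy⟩ := (hiff d).1 hd
  unfold Eqn at he
  rw [ht] at he
  rw [← Yf_jj' c (fwd c m), ← Yf_jj' d (fwd d m)]
  unfold ggE
  simp only [(hrep c hc).1, (hrep c hc).2, (hrep d hd).2]
  rcases c with ⟨_ | _, _ | _⟩ <;> rcases d with ⟨_ | _, _ | _⟩ <;>
    simp only [ii, jj, jj', Bool.false_eq_true, if_false, if_true] at hcx hcy hdx hdy ⊢ <;>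
    field_simp <;> first | linear_combination he | linear_combination -he |
      linear_combination (y 2) * he | linear_combination -(y 2) * he

lemma exists_ne_aux (c : Bool × Bool) (h : E3 → ℂ) (v : E3) (hv : ∀ p s, h (p + s • v) = h p + s)
    (S : Set Tot) (hS : S ⊆ src c)
    (hstab : ∀ x ∈ S, ∀ s : ℂ, fwd c x + s • v ∈ tgt → bwd c (fwd c x + s • v) ∈ S) :
    ∀ x ∈ S, ∀ W ∈ 𝓝 x, ∃ y ∈ W ∩ S, h (fwd c y) ≠ 0 := by
  intro x hx W hW
  set p := fwd c x with hp
  have hpt : p ∈ tgt := fwd_mem c x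
  have hb : bwd c p = x := bwd_fwd c (hS hx)
  have hcl : Tendsto (fun s : ℂ => p + s • v) (𝓝 0) (𝓝 p) := by
    have h1 : Continuous fun s : ℂ => p + s • v := by fun_prop
    simpa using h1.tendsto 0
  have ev1 : ∀ᶠ s in 𝓝 (0 : ℂ), p + s • v ∈ tgt := hcl.eventually (isOpen_tgt.mem_nhds hpt)
  have hcb : Tendsto (bwd c) (𝓝 p) (𝓝 x) := by
    have h1 := ((continuousOn_bwd c).continuousAt (isOpen_tgt.mem_nhds hpt)).tendsto
    rwa [hb] at h1
  have ev2 : ∀ᶠ s in 𝓝 (0 : ℂ), bwd c (p + s • v) ∈ W := (hcb.comp hcl).eventually hW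
  have ev3 : ∀ᶠ s in 𝓝[≠] (0 : ℂ), h p + s ≠ 0 := by
    by_cases hp0 : h p = 0
    · filter_upwards [self_mem_nhdsWithin] with s hs
      rw [hp0, zero_add]; exact hs
    · have : ∀ᶠ s in 𝓝 (0 : ℂ), h p + s ≠ 0 := by
        have hc : ContinuousAt (fun s : ℂ => h p + s) 0 := by fun_prop
        exact hc.eventually (isOpen_ne.mem_nhds (by simpa using hp0))
      exact this.filter_mono nhdsWithin_le_nhds
  obtain ⟨s, hs1, hs2, hs3⟩ := ((ev1.filter_mono nhdsWithin_le_nhds).and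
    ((ev2.filter_mono nhdsWithin_le_nhds).and ev3)).exists
  refine ⟨bwd c (p + s • v), ⟨hs2, hstab x hx s hs1⟩, ?_⟩
  rw [fwd_bwd c hs1, hv]
  exact hs3

lemma EL_sq_of_ne {z : ℂ} (hz : z ≠ 0) : EL (z ^ 2) = ((Real.log (‖z‖ ^ 2) : ℝ) : EReal) := by
  rw [EL_of_ne (pow_ne_zero 2 hz), norm_pow]

/-- weights of the metric given by the section -/
noncomputable def phiS (c : Bool × Bool) (m : Tot) : EReal := EL (secE c (fwd c m) ^ 2)

/-- weights of the metric on the central fibre -/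
noncomputable def phi0 (c : Bool × Bool) (m : Tot) : EReal := EL ((fwd c m).2.1)

lemma posMetric_phiS : LL.IsPosMetric Set.univ phiS where
  psh := by
    intro c
    refine isPsh_EL _ (fun m => secE c (fwd c m) ^ 2) ?_ ?_ ?_
    · exact ((((differentiable_secE c).continuous.comp_continuousOn
        (continuousOn_fwd c)).pow 2).mono Set.inter_subset_left)
    · intro r f _ hf
      exact (((differentiable_secE c).comp_differentiableOn
        (disc_coord (c := c) Set.inter_subset_left hf)).pow 2)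
    · have key : ∀ x ∈ src c, ∀ W ∈ 𝓝 x, ∃ y ∈ W ∩ src c, secE c (fwd c y) ≠ 0 := by
        rcases c with ⟨_ | _, _ | _⟩
        · exact exists_ne_aux _ _ (0, 0, 1) (by intro p s; simp [secE, Xf, Yf]; ring) _ subset_rfl
            (fun _ _ _ _ => bwd_mem _ _)
        · exact exists_ne_aux _ _ (1, 0, 0) (by intro p s; simp [secE, Xf, Yf]; ring) _ subset_rfl
            (fun _ _ _ _ => bwd_mem _ _)
        · exact exists_ne_aux _ _ (0, 1, 0) (by intro p s; simp [secE, Yf]) _ subset_rfl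
            (fun _ _ _ _ => bwd_mem _ _)
        · intro x hx W hW
          exact ⟨x, ⟨mem_of_mem_nhds hW, hx⟩, by simp [secE, Yf]⟩
      intro x hx W hW
      obtain ⟨y, hy, hy'⟩ := key x hx.1 W hW
      exact ⟨y, ⟨hy.1, hy.2, trivial⟩, pow_ne_zero 2 hy'⟩
  compat := by
    intro c d m hm
    have h1 : ggE c d (fwd c m) ≠ 0 := LL.ne_zero c d m ⟨hm.1.1, hm.1.2⟩
    show EL (secE c (fwd c m) ^ 2) = EL (secE d (fwd d m) ^ 2) +
      ((Real.log (‖ggE c d (fwd c m)‖ ^ 2) : ℝ) : EReal)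
    rw [secE_compat c d hm.1.1 hm.1.2, mul_pow, EL_mul, EL_sq_of_ne h1, add_comm]

lemma posMetric_phi0 : LL.IsPosMetric (tt ⁻¹' {0}) phi0 where
  psh := by
    intro c
    refine isPsh_EL _ (fun m => (fwd c m).2.1) ?_ ?_ ?_
    · exact ((continuous_fst.comp continuous_snd).comp_continuousOn
        (continuousOn_fwd c)).mono Set.inter_subset_left
    · intro r f _ hf
      exact (disc_coord (c := c) Set.inter_subset_left hf).snd.fst
    · refine exists_ne_aux c (fun p => p.2.1) (0, 1, 0) (by intro p s; simp) _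
        Set.inter_subset_left ?_
      intro x hx s hs
      refine ⟨bwd_mem _ _, ?_⟩
      show tt (bwd c (fwd c x + s • (0, 1, 0))) ∈ ({0} : Set ℂ)
      rw [tt_bwd c hs]
      have h0 : (fwd c x).2.2 = 0 := hx.2
      simp [h0]
  compat := by
    intro c d m hm
    have h1 : ggE c d (fwd c m) ≠ 0 := LL.ne_zero c d m ⟨hm.1.1, hm.1.2⟩
    show EL ((fwd c m).2.1) = EL ((fwd d m).2.1) +
      ((Real.log (‖ggE c d (fwd c m)‖ ^ 2) : ℝ) : EReal)
    rw [coord_compat c d hm.1.1 hm.1.2 hm.2, EL_mul, EL_sq_of_ne h1, add_comm]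

/-! ### non-extension -/

lemma cc_mem {r : ℝ} {x t : ℂ} (ht : ‖t‖ < 1) (htr : ‖t‖ < r) :
    bwd (true, false) (x, 0, t) ∈ src (true, false) ∩ tt ⁻¹' (ball 0 r) := by
  refine ⟨bwd_mem _ _, ?_⟩
  show tt (bwd (true, false) (x, 0, t)) ∈ ball (0 : ℂ) r
  rw [tt_bwd _ (show ((x, 0, t) : E3) ∈ tgt from ht)]
  simpa using htr

lemma no_extension (r : ℝ) (hr : 0 < r) :
    ¬ ∃ φ : LL.ι → Tot → EReal, LL.IsPosMetric (tt ⁻¹' ball 0 r) φ ∧
      ∀ i, ∀ x ∈ LL.U i, tt x = 0 → φ i x = phi0 i x := by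
  rintro ⟨φ, hφ, hext⟩
  set δ : ℝ := min r 1 / 4 with hδ
  have hδ0 : 0 < δ := by have := lt_min hr one_pos; linarith
  have hδ1 : δ < 1 := by have := min_le_right r 1; linarith
  have hδr : δ < r := by have := min_le_left r 1; linarith
  -- upper bound on a compact set in the chart B
  set A : Bool × Bool := (false, false) with hA
  set B : Bool × Bool := (true, false) with hB
  obtain ⟨M, hM0, hM⟩ : ∃ M : ℝ, Real.log δ ≤ M ∧ ∀ x t : ℂ, ‖x‖ ≤ 1 → ‖t‖ ≤ δ →
      φ B (bwd B (x, 0, t)) ≤ (M : EReal) := by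
    set C : Set Tot := bwd B '' (closedBall 0 1 ×ˢ {0} ×ˢ closedBall 0 δ) with hC
    have hCc : IsCompact C := by
      refine ((isCompact_closedBall _ _).prod (isCompact_singleton.prod
        (isCompact_closedBall _ _))).image_of_continuousOn ((continuousOn_bwd B).mono ?_)
      rintro p ⟨_, _, hp⟩
      have : ‖p.2.2‖ ≤ δ := by simpa using hp
      show ‖p.2.2‖ < 1
      linarith
    have hCsub : C ⊆ src B ∩ tt ⁻¹' (ball 0 r) := by
      rintro _ ⟨⟨x, y, t⟩, ⟨_, hy, ht⟩, rfl⟩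
      have hy' : y = 0 := hy
      have ht' : ‖t‖ ≤ δ := by simpa using ht
      subst hy'
      exact cc_mem (by linarith) (by linarith)
    have hpsh := hφ.psh B
    have husc : UpperSemicontinuousOn (φ B) C := hpsh.2.1.mono hCsub
    have hCne : C.Nonempty := ⟨_, (0, 0, 0), ⟨by simp, by simp, by simp [hδ0.le]⟩, rfl⟩
    obtain ⟨a, ha, hmax⟩ := husc.exists_isMaxOn hCne hCc
    have hatop : φ B a < ⊤ := hpsh.1 a (hCsub ha)
    refine ⟨max (Real.log δ) (φ B a).toReal, le_max_left _ _, ?_⟩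
    intro x t hx ht
    have hmem : bwd B (x, 0, t) ∈ C :=
      ⟨(x, 0, t), ⟨by simpa using hx, rfl, by simpa using ht⟩, rfl⟩
    refine (hmax hmem).trans ?_
    refine (EReal.le_coe_toReal hatop.ne).trans ?_
    exact EReal.coe_le_coe_iff.2 (le_max_right _ _)
  -- the disc
  set ε : ℝ := Real.exp (Real.log δ - M - 1) with hε
  have hε0 : 0 < ε := Real.exp_pos _
  have hε1 : ε < 1 := by
    rw [hε, Real.exp_lt_one_iff]; linarith
  have hlogε : Real.log ε = Real.log δ - M - 1 := Real.log_exp _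
  set q : ℂ → E3 := fun ζ => (ζ / ε, ((ε * δ : ℝ) : ℂ), -(δ * ζ)) with hq
  have hεc : (ε : ℂ) ≠ 0 := Complex.ofReal_ne_zero.2 hε0.ne'
  have hqt : ∀ ζ : ℂ, ‖ζ‖ < 2 → ‖(q ζ).2.2‖ < 2 * δ := by
    intro ζ hζ
    simp only [hq, norm_neg, norm_mul, Complex.norm_real, Real.norm_of_nonneg hδ0.le]
    nlinarith
  have h2δ1 : 2 * δ < 1 := by have := min_le_right r 1; linarith
  have h2δr : 2 * δ < r := by have := min_le_left r 1; linarith
  have hqtgt : ∀ ζ : ℂ, ‖ζ‖ < 2 → q ζ ∈ tgt := fun ζ hζ => (hqt ζ hζ).trans h2δ1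
  have hdisc : IsHolDisc E3 (LL.U A ∩ tt ⁻¹' ball 0 r) 2 (fun ζ => bwd A (q ζ)) := by
    refine ⟨?_, ?_⟩
    · refine (contMDiffOn_bwd A).comp (contMDiffOn_iff_contDiffOn.2 ?_) ?_
      · refine ContDiff.contDiffOn ?_
        simp only [hq]
        fun_prop
      · intro ζ hζ
        exact hqtgt ζ (by simpa using hζ)
    · intro ζ hζ
      have hζ' : ‖ζ‖ < 2 := by simpa using hζ
      refine ⟨bwd_mem _ _, ?_⟩
      show tt (bwd A (q ζ)) ∈ ball (0 : ℂ) r
      rw [tt_bwd A (hqtgt ζ hζ')]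
      simpa using (hqt ζ hζ').trans h2δr
  have hcircle : ∀ ζ : ℂ, ‖ζ‖ = 1 →
      φ A (bwd A (q ζ)) ≤ ((M + Real.log (ε ^ 2) : ℝ) : EReal) := by
    intro ζ hζ
    have hζ0 : ζ ≠ 0 := by
      intro h; rw [h, norm_zero] at hζ; exact zero_ne_one hζ
    have hqm : q ζ ∈ tgt := hqtgt ζ (by rw [hζ]; norm_num)
    have hmB : bwd A (q ζ) ∈ src B := by
      rw [bwd_mem_src_iff A B hqm]
      simp [hA, hB, hq, Xf, Yf, ii, jj, hζ0, hεc]
    obtain ⟨_, _, hfB⟩ := fwd_bwd_eq A B hqm hmB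
    have hfB' : fwd B (bwd A (q ζ)) = (ε / ζ, 0, -(δ * ζ)) := by
      rw [hfB]
      simp only [hA, hB, hq, Xf, Yf, ii, jj, ii', jj', Bool.false_eq_true, if_false, if_true]
      simp only [Matrix.cons_val_zero, Matrix.cons_val_one, Matrix.cons_val]
      refine Prod.ext ?_ (Prod.ext ?_ rfl)
      · simp
      · simp only
        push_cast
        field_simp
        ring
    have hb : bwd A (q ζ) = bwd B (ε / ζ, 0, -(δ * ζ)) := by
      rw [← hfB', bwd_fwd B hmB]
    have hbound : φ B (bwd A (q ζ)) ≤ (M : EReal) := by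
      rw [hb]
      refine hM _ _ ?_ ?_
      · rw [norm_div, hζ, div_one, Complex.norm_real, Real.norm_of_nonneg hε0.le]
        exact hε1.le
      · rw [norm_neg, norm_mul, hζ, mul_one, Complex.norm_real, Real.norm_of_nonneg hδ0.le]
    have hmemS : bwd A (q ζ) ∈ LL.U A ∩ LL.U B ∩ tt ⁻¹' ball 0 r := by
      refine ⟨⟨bwd_mem _ _, hmB⟩, ?_⟩
      show tt (bwd A (q ζ)) ∈ ball (0 : ℂ) r
      rw [tt_bwd A hqm]
      simpa using (hqt ζ (by rw [hζ]; norm_num)).trans h2δr
    have hc := hφ.compat A B (bwd A (q ζ)) hmemS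
    have hgnorm : ‖LL.g A B (bwd A (q ζ))‖ = ε := by
      show ‖ggE A B (fwd A (bwd A (q ζ)))‖ = ε
      rw [fwd_bwd A hqm]
      simp [ggE, hA, hB, hq, Xf, Yf, ii, jj, hζ, abs_of_pos hε0]
    rw [hc, hgnorm, EReal.coe_add]
    exact add_le_add hbound le_rfl
  have hpsh := (hφ.psh A).2.2.2 2 _ one_lt_two hdisc (fun _ => M + Real.log (ε ^ 2))
    continuous_const hcircle
  rw [Real.circleAverage_const] at hpsh
  have hq0 : q 0 ∈ tgt := hqtgt 0 (by simp)
  have hzero : tt (bwd A (q 0)) = 0 := by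
    rw [tt_bwd A hq0]; simp [hq]
  have hval := hext A (bwd A (q 0)) (bwd_mem _ _) hzero
  rw [hval] at hpsh
  have hphi : phi0 A (bwd A (q 0)) = ((Real.log (ε * δ) : ℝ) : EReal) := by
    unfold phi0
    rw [fwd_bwd A hq0]
    simp only [hq]
    rw [EL_of_ne (Complex.ofReal_ne_zero.2 (by positivity)), Complex.norm_real,
      Real.norm_of_nonneg (by positivity)]
  rw [hphi] at hpsh
  have hfin := EReal.coe_le_coe_iff.1 hpsh
  rw [Real.log_mul hε0.ne' hδ0.ne', Real.log_pow] at hfin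
  push_cast at hfin
  linarith

/-- **Main theorem.** There are a proper holomorphic submersion `π : X → Δ` onto the unit disc with
connected compact Kähler fibres (of dimension two), a pseudoeffective holomorphic line bundle `L`
on `X` and a singular hermitian metric `e^{-φ₀}` with semi-positive curvature on the restriction of
`L` to `X_0 = π⁻¹(0)` which has no semi-positive extension to `X`, and not even to a neighbourhood
`π⁻¹(|t| < r)` of `X_0`, `r > 0`. -/
theorem result :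
    ∃ (X : Type) (_ : TopologicalSpace X) (_ : T2Space X) (_ : SecondCountableTopology X)
      (_ : ChartedSpace (ℂ × ℂ × ℂ) X) (_ : IsManifold 𝓘(ℂ, ℂ × ℂ × ℂ) ω X)
      (π : X → ℂ) (L : HolLineBundle (ℂ × ℂ × ℂ) X) (φ₀ : L.ι → X → EReal),
      IsKahlerFamily (ℂ × ℂ × ℂ) π ∧ L.IsPseudoeffective ∧
      L.IsPosMetric (π ⁻¹' {0}) φ₀ ∧
      ∀ r : ℝ, 0 < r → ¬ ∃ φ : L.ι → X → EReal,
        L.IsPosMetric (π ⁻¹' ball 0 r) φ ∧ ∀ i, ∀ x ∈ L.U i, π x = 0 → φ i x = φ₀ i x := by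
  refine ⟨Tot, inferInstance, inferInstance, inferInstance, inferInstance, inferInstance, tt, LL,
    phi0, ?_, ⟨phiS, posMetric_phiS⟩, posMetric_phi0, no_extension⟩
  exact
    { mem_disc := fun m => by
        obtain ⟨m, x, y, _, _, ht, _⟩ := m
        simpa [tt] using ht
      holomorphic := contMDiff_tt
      submersion := submersion_tt
      proper := proper_tt
      connected := connected_tt
      kahler := fun t _ => kahler_fibre t }

end Pool.Agent.Results.MP_752b71_an.NoExtension
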